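import Pool.Agent.Q187.BC.Prod

/-!
# Algebraically trivial cycles in the kernel of the Abel-Jacobi map
-/

open CategoryTheory AlgebraicGeometry

universe u v w

namespace Pool.Agent.Q187.BC

open Pool.Agent.H914 Pool.Agent.H914.VarClass Pool.Agent.H914.VarClass.Obj Pool.Agent.W492.BB
  Pool.Agent.W550.Corr Pool.Agent.TH133 Pool.Agent.Y148.BB Pool.Agent.Q187.AJ

set_option linter.unusedSectionVars false
set_option linter.unusedVariables false

variable {k : Type u} [Field k] {𝒱 : VarClass k}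

variable {C : TheoryData.{u, v, 0} 𝒱 ℚ} [hC : IsChowProj C] {K : Type w} [Field K]
  {H : WeilTheoryData.{u, v, w} C K} [hH : IsWeilProj H] {X Y Z W T T₁ T₂ P S R B M : 𝒱.Obj}
  {N : ∀ X : 𝒱.Obj, ℕ → Submodule ℚ (C.A X)}

/-- The algebraically trivial classes of codimension `j`. -/
def AlgT (H : WeilTheoryData.{u, v, w} C K) (X : 𝒱.Obj) (j : ℤ) : Submodule ℚ (C.A X) :=
  Submodule.span ℚ {c | ∃ (B : 𝒱.Obj) (W : C.A (B.prod X)) (b : C.A B), B.dim = 1 ∧ C.Deg j W ∧
    C.Deg 1 b ∧ H.cl b = 0 ∧ c = C.act W b}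

/-- The algebraically trivial classes given by families with trivial Abel-Jacobi map. -/
def AlgN (H : WeilTheoryData.{u, v, w} C K) (X : 𝒱.Obj) (j : ℤ) : Submodule ℚ (C.A X) :=
  Submodule.span ℚ {c | ∃ (B : 𝒱.Obj) (W : C.A (B.prod X)) (b : C.A B), B.dim = 1 ∧ C.Deg j W ∧
    Kills H W 1 ∧ C.Deg 1 b ∧ H.cl b = 0 ∧ c = C.act W b}

/-- Algebraically trivial classes in the kernel of the Abel-Jacobi map come from families with
trivial Abel-Jacobi map. -/
def Spread (H : WeilTheoryData.{u, v, w} C K) (N : ∀ X : 𝒱.Obj, ℕ → Submodule ℚ (C.A X)) : Prop :=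
  ∀ (X : 𝒱.Obj) (j : ℕ) (z : C.A X), z ∈ AlgT H X j → z ∈ N X j → z ∈ AlgN H X j

/-- There are no homologically trivial classes on `(P, p) ⊗ h^1(B)`. -/
def V3 (H : WeilTheoryData.{u, v, w} C K) (P B : 𝒱.Obj) (p : C.A (P.prod P)) (o : C.A B) : Prop :=
  ∀ y : C.A (P.prod B), C.Deg 2 y → H.cl y = 0 → C.act (tens C p (oddProj C o)) y = y → y = 0

include hC hH

lemma odd_act_hom {o : C.A T} (hT : T.dim = 1) (ho : C.Deg 1 o) {b : C.A T} (hb : C.Deg 1 b)
    (h0 : H.cl b = 0) : C.act (oddProj C o) b = b := by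
  have h1 : C.act (C.ext o (1 : C.A T)) b = 0 :=
    act_ext_zero_of_lt (C.mul_mem ho hb) (by rw [hT]; norm_num)
  have h2 : C.act (C.ext (1 : C.A T) o) b = 0 := by
    rw [act_ext' (q := 0) (by
      rw [one_mul]
      exact hasDegree_zero_of_cl H (by rw [hT]; exact_mod_cast hb) h0), zero_smul]
  rw [oddProj, C.act_sub, C.act_sub, h1, h2, act_dg, sub_zero, sub_zero]

variable (hN : IsAbelJacobiKernel H N)
include hN

omit hN in
lemma alg_stable {j i : ℕ} {Γ : C.A (X.prod Y)} (hΓ : C.Deg (X.dim + i - j) Γ) {z : C.A X}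
    (hz : z ∈ AlgT H X j) : C.act Γ z ∈ AlgT H Y i := by
  have h1 : AlgT H X j ≤ (AlgT H Y i).comap (C.actL Γ) := by
    refine Submodule.span_le.2 ?_
    rintro c ⟨B, W, b, hB, hW, hb, hb0, rfl⟩
    refine Submodule.subset_span ⟨B, C.comp W Γ, b, hB, ?_, hb, hb0, ?_⟩
    · have h2 := comp_mem C (e := (j : ℤ) - 1) (e' := (i : ℤ) - j) (Γ := W) (Δ := Γ)
        (by rw [hB]; exact gr_congr (by push_cast; ring) hW) (gr_congr (by ring) hΓ)
      refine gr_congr ?_ h2
      rw [hB]; push_cast; ring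
    · rw [C.act_comp]
      rfl
  exact h1 hz

/-- The step along a curve. -/
lemma V3_of (hF : FibreProperty C) {n : ℕ} {p : C.A (P.prod P)} (hp : IsPure H n P p)
    (h1 : ∀ w ∈ N P 2, w ∈ AlgT H P 2 → C.act p w = 0)
    (h2 : ∀ x, C.Deg 1 x → C.act p x = 0) {o : C.A T} (hT : T.dim = 1) (ho : C.Deg 1 o)
    (hd : HasDegree C o 1) : V3 H P T p o := by
  intro y hy h0 hyy
  have hr : IsPure H 1 T (oddProj C o) := isPure_odd hT ho hd
  have hy1 : y = C.comp (C.comp p y) (oddProj C o) := by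
    rw [← act_curry p (oddProj C o) hp.self, hyy]
  have htp : tp C y = C.comp (oddProj C o) (C.comp (tp C y) p) := by
    conv_lhs => rw [hy1]
    rw [tp_comp C (ch_comm C), tp_comp C (ch_comm C), hr.self, hp.self]
  have fib : ∀ t : C.A T, C.Deg 1 t → C.down (fst P T) (C.mul y (C.up (snd P T) t)) = 0 := by
    intro t ht
    have e1 : C.down (fst P T) (C.mul y (C.up (snd P T) t)) = C.act (tp C y) t :=
      (act_tp C y t).symm
    rw [e1, htp, C.act_comp, C.act_comp]
    have hb : C.Deg 1 (C.act (oddProj C o) t) := act_mem0 C hr.mem ht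
    have hb0 : H.cl (C.act (oddProj C o) t) = 0 := by
      rw [cl_act H]
      refine hr.kills 2 (by norm_num) _ ?_
      have := H.cl_mem (C := C) (X := T) ht
      simpa using this
    have hW : C.Deg 2 (tp C y) := tp_mem C hy
    apply h1
    · have h3 : C.Deg (T.dim + (2 : ℕ) - (1 : ℕ)) (tp C y) := by
        rw [hT]
        exact gr_congr (by norm_num) hW
      refine hN.kills T P 1 2 (tp C y) h3 ?_ _ (by simpa using hb) hb0
      apply kills_of_cl
      rw [cl_tp, h0, tp_zero]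
    · exact Submodule.subset_span ⟨T, tp C y, _, hT, hW, hb, hb0, rfl⟩
  have hspan := hF P T 2 y hT hy fib
  rw [← hyy]
  refine eq_zero_of_span (H := H) hspan ?_
  rintro c ⟨x, t, hx, ht, rfl⟩
  rw [act_tens_ext C p _ (fun f c => ch_comm C _ _), h2 x (by simpa using hx),
    TheoryData.ext_zero_left]

/-- The converse. -/
lemma of_V3 {n : ℕ} {p : C.A (P.prod P)} (hp : IsPure H n P p) (hG : Spread H N)
    (h : ∀ (B : 𝒱.Obj) (o : C.A B), B.dim = 1 → C.Deg 1 o → HasDegree C o 1 → V3 H P B p o) :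
    ∀ w ∈ N P 2, w ∈ AlgT H P 2 → C.act p w = 0 := by
  intro w hw hwA
  have h1 : AlgN H P 2 ≤ LinearMap.ker (C.actL p) := by
    refine Submodule.span_le.2 ?_
    rintro c ⟨B, W, b, hB, hW, hk, hb, hb0, rfl⟩
    change C.act p (C.act W b) = 0
    obtain ⟨o, ho', ho1, ho2⟩ := exists_deg_one C B
    have ho : C.Deg 1 o := by
      rw [hB] at ho'
      exact_mod_cast ho'
    have hd : HasDegree C o 1 := fun Y => by
      rw [one_smul]
      exact ⟨ho2 Y, ho1 Y⟩
    have hr : IsPure H 1 B (oddProj C o) := isPure_odd hB ho hd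
    have hodd := odd_act_hom (H := H) hB ho hb hb0
    have e1 : C.act p (C.act W b) = C.act (C.comp (C.comp (oddProj C o) W) p) b := by
      rw [fac3, hodd]
    have hmem : C.comp (C.comp (oddProj C o) W) p ∈ C.gr (B.prod P) (B.dim + (0 + 1 + 0)) := by
      have h2 := comp_mem C (e := 0) (e' := 1) (Γ := oddProj C o) (Δ := W)
        (by rw [add_zero]; exact hr.mem) (by rw [hB]; exact gr_congr (by norm_num) hW)
      exact comp_mem C h2 (by rw [add_zero]; exact hp.mem)
    have h0 : H.cl (C.comp (C.comp (oddProj C o) W) p) = 0 := by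
      refine hom_zero_of_act H fun a => ?_
      have key : ∀ m : ℤ, ∀ a ∈ H.gr B m,
          H.act (H.cl (C.comp (C.comp (oddProj C o) W) p)) a = 0 := by
        intro m a ha
        rw [actH_comp, actH_comp]
        by_cases hm : m = 1
        · subst hm
          have h1 := actH_mem H (e := 0) (by rw [add_zero]; exact hr.mem) ha
          rw [mul_zero, add_zero] at h1
          rw [hk _ h1, TheoryData.act_map_zero]
        · rw [hr.kills m (by exact_mod_cast hm) a ha, TheoryData.act_map_zero,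
            TheoryData.act_map_zero]
      have h1 := ext_gr H (H.actL (H.cl (C.comp (C.comp (oddProj C o) W) p))) 0 fun m a ha => by
        rw [LinearMap.zero_apply]
        exact key m a ha
      exact congrArg (fun f => f a) h1
    have h2 := h B o hB ho hd (tp C (C.comp (C.comp (oddProj C o) W) p)) (by
        refine gr_congr ?_ (tp_mem C hmem)
        rw [hB]; norm_num) (by rw [cl_tp, h0, tp_zero]) (by
        rw [act_curry p _ hp.self]
        rw [tp_comp C (ch_comm C), tp_comp C (ch_comm C), hr.self, hp.self]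
        simp only [comp_assoc C]
        rw [hr.idem, ← comp_assoc C p p, hp.idem])
    rw [e1, ← tp_tp C (C.comp (C.comp (oddProj C o) W) p), h2, tp_zero, TheoryData.act_zero]
  exact h1 (hG P 2 w hwA hw)

/-- The two conditions for all curves. -/
theorem V3_iff (hF : FibreProperty C) (hG : Spread H N) {n : ℕ} {p : C.A (P.prod P)}
    (hp : IsPure H n P p) (hn : 3 ≤ n) :
    (∀ (B : 𝒱.Obj) (o : C.A B), B.dim = 1 → C.Deg 1 o → HasDegree C o 1 → V3 H P B p o) ↔
      ∀ w ∈ N P 2, w ∈ AlgT H P 2 → C.act p w = 0 :=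
  ⟨of_V3 hN hp hG, fun h B o hB ho hd => V3_of hN hF hp h (fun x hx => pure_div hN hp hn hx) hB ho
    hd⟩

omit hN in
/-- Reassociation. -/
lemma V3_assoc {σ : C.A (S.prod S)} {o₁ : C.A T} {o₂ : C.A B} (hσ : IsPure H 2 S σ) :
    V3 H (S.prod T) B (tens C σ (oddProj C o₁)) o₂ ↔
      V2 H S (T.prod B) σ (tens C (oddProj C o₁) (oddProj C o₂)) := by
  constructor
  · intro h y hy h0 hyy
    have h1 := h (C.pull (aI S T B) y) (C.pull_mem _ hy) (by rw [H.cl_pull, h0, map_zero]) (by
      rw [← pull_aI_tens, act_pull_iso (aI S T B) (aJ S T B) aI_aJ aJ_aI, act_curry σ _ hσ.self,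
        hyy])
    refine pull_inj (f := aI S T B) (g := aJ S T B) aJ_aI ?_
    rw [h1, map_zero]
  · intro h y hy h0 hyy
    have e1 : C.pull (aI S T B) (C.pull (aJ S T B) y) = y := by
      rw [← C.pull_comp, aI_aJ, C.pull_id]
    have h1 := h (C.pull (aJ S T B) y) (C.pull_mem _ hy) (by rw [H.cl_pull, h0, map_zero]) (by
      rw [← act_curry σ _ hσ.self]
      refine pull_inj (f := aI S T B) (g := aJ S T B) aJ_aI ?_
      rw [← act_pull_iso (aI S T B) (aJ S T B) aI_aJ aJ_aI, pull_aI_tens, e1, hyy])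
    rw [← e1, h1, map_zero]

omit hN in
lemma V2_symm {σ : C.A (S.prod S)} {ρ : C.A (R.prod R)} (hσ : IsPure H 2 S σ)
    (hρ : IsPure H 2 R ρ) (h : V2 H S R σ ρ) : V2 H R S ρ σ := by
  intro y hy h0 hyy
  have h1 := h (tp C y) (tp_mem C hy) (by rw [cl_tp, h0, tp_zero]) (by
    have h2 := congrArg (tp C) hyy
    rw [tp_comp C (ch_comm C), tp_comp C (ch_comm C), hσ.self, hρ.self, ← comp_assoc C] at h2
    exact h2)
  rw [← tp_tp C y, h1, tp_zero]

end Pool.Agent.Q187.BC
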