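import Pool.Agent.Q187.BC.Core

/-!
# Projectors which carry the Albanese kernel of a surface
-/

open CategoryTheory AlgebraicGeometry

universe u v w

namespace Pool.Agent.Q187.BC

open Pool.Agent.H914 Pool.Agent.H914.VarClass Pool.Agent.H914.VarClass.Obj Pool.Agent.W492.BB
  Pool.Agent.W550.Corr Pool.Agent.TH133 Pool.Agent.Y148.BB Pool.Agent.Q187.AJ

set_option linter.unusedSectionVars false
set_option linter.unusedVariables false

variable {k : Type u} [Field k] {𝒱 : VarClass k}

variable {C : TheoryData.{u, v, 0} 𝒱 ℚ} [hC : IsChowProj C] {K : Type w} [Field K]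
  {H : WeilTheoryData.{u, v, w} C K} [hH : IsWeilProj H] {X Y Z W T P S R B M : 𝒱.Obj}
  {N : ∀ X : 𝒱.Obj, ℕ → Submodule ℚ (C.A X)}

/-- Cycles on `T × S`, `T` a curve, are determined by their fibres over `T`. -/
def Fib (N : ∀ X : 𝒱.Obj, ℕ → Submodule ℚ (C.A X)) (S : 𝒱.Obj) (σ : C.A (S.prod S)) : Prop :=
  ∀ (T : 𝒱.Obj), T.dim = 1 → ∀ y : C.A (T.prod S), y ∈ N (T.prod S) 2 → C.comp y σ = y →
    (∀ t : C.A T, C.Deg 1 t → C.act y t = 0) → y = 0

/-- Homologically trivial cycles on `S × R` are determined by their action on zero-cycles. -/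
def Tst (H : WeilTheoryData.{u, v, w} C K) (N : ∀ X : 𝒱.Obj, ℕ → Submodule ℚ (C.A X)) (S : 𝒱.Obj)
    (σ : C.A (S.prod S)) : Prop :=
  ∀ (R : 𝒱.Obj) (ρ : C.A (R.prod R)), IsPure H 2 R ρ → Fib N R ρ → ∀ y : C.A (S.prod R),
    C.Deg 2 y → H.cl y = 0 → C.comp (C.comp σ y) ρ = y →
    (∀ β : C.A S, C.Deg 2 β → C.act y β = 0) → y = 0

/-- A projector which carries the kernel of the Albanese map of the surface. -/
structure Carrier (H : WeilTheoryData.{u, v, w} C K) (N : ∀ X : 𝒱.Obj, ℕ → Submodule ℚ (C.A X))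
    (S : 𝒱.Obj) (σ : C.A (S.prod S)) : Prop where
  pure : IsPure H 2 S σ
  eq : ∀ α ∈ N S 2, C.act σ α = α
  fib : Fib N S σ
  tst : Tst H N S σ

/-- There are no homologically trivial correspondences from `(S, σ)` to `(R, ρ)`. -/
def V2 (H : WeilTheoryData.{u, v, w} C K) (S R : 𝒱.Obj) (σ : C.A (S.prod S)) (ρ : C.A (R.prod R)) :
    Prop :=
  ∀ y : C.A (S.prod R), C.Deg 2 y → H.cl y = 0 → C.comp (C.comp σ y) ρ = y → y = 0

/-- Sums of products of divisors. -/
noncomputable def Dec (C : TheoryData.{u, v, 0} 𝒱 ℚ) (S R : 𝒱.Obj) : Submodule ℚ (C.A (S.prod R)) :=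
  Submodule.span ℚ {c | ∃ (D : C.A S) (D' : C.A R), C.Deg 1 D ∧ C.Deg 1 D' ∧ c = C.ext D D'}

/-- Bloch's conjecture for the correspondences from `S` to `R`. -/
def Blo (H : WeilTheoryData.{u, v, w} C K) (N : ∀ X : 𝒱.Obj, ℕ → Submodule ℚ (C.A X))
    (S R : 𝒱.Obj) : Prop :=
  ∀ z : C.A (S.prod R), C.Deg 2 z → (∃ D ∈ Dec C S R, Kills H (z - D) 2) →
    ∀ α ∈ N S 2, C.act z α = 0

include hC hH

omit hH in
lemma comp_mem2 (hS : S.dim = 2) (hR : R.dim = 2) {σ : C.A (S.prod S)} {ρ : C.A (R.prod R)}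
    (hσ : σ ∈ C.gr (S.prod S) S.dim) (hρ : ρ ∈ C.gr (R.prod R) R.dim) {z : C.A (S.prod R)}
    (hz : C.Deg 2 z) : C.Deg 2 (C.comp (C.comp σ z) ρ) := by
  have h1 : C.comp σ z ∈ C.gr (S.prod R) (S.dim + (0 + 0)) :=
    comp_mem C (e := 0) (e' := 0) (by rw [add_zero]; exact hσ) (by
      rw [hS]; exact gr_congr (by norm_num) hz)
  have h2 := comp_mem C (e := 0 + 0) (e' := 0) h1 (by rw [add_zero]; exact hρ)
  refine gr_congr ?_ h2
  rw [hS]; norm_num

/-- A decomposable correspondence acts as zero on zero-cycles of the Albanese kernel. -/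
lemma dec_act (hN : IsAbelJacobiKernel H N) (hS : S.dim = 2) {D : C.A (S.prod R)}
    (hD : D ∈ Dec C S R) {α : C.A S} (hα : C.Deg 2 α) : C.act D α = 0 := by
  have h1 : Dec C S R ≤ LinearMap.ker ((actB C (X := S) (Y := R)).flip α) := by
    refine Submodule.span_le.2 ?_
    rintro c ⟨D, D', hD, hD', rfl⟩
    change C.act (C.ext D D') α = 0
    exact act_ext_zero_of_lt (C.mul_mem hD hα) (by rw [hS]; norm_num)
  exact h1 hD

omit hH in
lemma dec_comp {P Q : 𝒱.Obj} {D : C.A (S.prod R)} (hD : D ∈ Dec C S R)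
    {f : C.A (P.prod S)} {g : C.A (R.prod Q)} (hf : f ∈ C.gr (P.prod S) P.dim)
    (hg : g ∈ C.gr (R.prod Q) R.dim) (hPS : P.dim = S.dim) (hRQ : R.dim = Q.dim) :
    C.comp (C.comp f D) g ∈ Dec C P Q := by
  have h1 : Dec C S R ≤ (Dec C P Q).comap
      ((compL C (X := P) (Y := R) (Z := Q)).flip g ∘ₗ compL C (X := P) (Y := S) (Z := R) f) := by
    refine Submodule.span_le.2 ?_
    rintro c ⟨D, D', hD, hD', rfl⟩
    change C.comp (C.comp f (C.ext D D')) g ∈ Dec C P Q
    rw [comp_ext, ext_comp]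
    refine Submodule.subset_span ⟨_, _, ?_, ?_, rfl⟩
    · have h2 : tp C f ∈ C.gr (S.prod P) (S.dim + 0) := by
        have := tp_mem C hf
        rw [add_zero, ← hPS]
        exact this
      have h3 := act_mem' C h2 hD
      rw [add_zero] at h3
      exact h3
    · have h2 : g ∈ C.gr (R.prod Q) (R.dim + 0) := by rw [add_zero]; exact hg
      have h3 := act_mem' C h2 hD'
      rw [add_zero] at h3
      exact h3
  exact h1 hD

omit hC hH in
lemma fac3 [IsChowProj C] (f : C.A (X.prod Y)) (z : C.A (Y.prod Z)) (g : C.A (Z.prod W)) (a : C.A X) :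
    C.act (C.comp (C.comp f z) g) a = C.act g (C.act z (C.act f a)) := by
  rw [C.act_comp, C.act_comp]

/-- A correspondence cut out by pure projectors of weight two and acting as zero on `H^2` is
homologically trivial. -/
lemma cl_zero {σ : C.A (S.prod S)} {ρ : C.A (R.prod R)} (hσ : IsPure H 2 S σ) {z : C.A (S.prod R)}
    (hz : Kills H z 2) : H.cl (C.comp (C.comp σ z) ρ) = 0 := by
  refine hom_zero_of_act H fun a => ?_
  have key : ∀ m : ℤ, ∀ a ∈ H.gr S m, H.act (H.cl (C.comp (C.comp σ z) ρ)) a = 0 := by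
    intro m a ha
    rw [actH_comp, actH_comp]
    by_cases hm : m = 2
    · subst hm
      have h1 := actH_mem H (e := 0) (by rw [add_zero]; exact hσ.mem) ha
      rw [mul_zero, add_zero] at h1
      rw [hz _ h1, TheoryData.act_map_zero]
    · rw [hσ.kills m (by exact_mod_cast hm) a ha, TheoryData.act_map_zero, TheoryData.act_map_zero]
  have h1 := ext_gr H (H.actL (H.cl (C.comp (C.comp σ z) ρ))) 0 fun m a ha => by
    rw [LinearMap.zero_apply]
    exact key m a ha
  have h2 := congrArg (fun f => f a) h1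
  exact h2

variable (hN : IsAbelJacobiKernel H N)
include hN

/-- Bloch's conjecture for correspondences, in terms of homologically trivial cycles. -/
theorem blo_iff {σ : C.A (S.prod S)} {ρ : C.A (R.prod R)} (hS : Carrier H N S σ)
    (hR : Carrier H N R ρ) : Blo H N S R ↔ V2 H S R σ ρ := by
  have hdS := hS.pure.dim
  have hdR := hR.pure.dim
  constructor
  · intro h y hy h0 hyy
    refine hS.tst R ρ hR.pure hR.fib y hy h0 hyy fun β hβ => ?_
    have h1 : C.act y β = C.act ρ (C.act y (C.act σ β)) := by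
      conv_lhs => rw [← hyy]
      rw [fac3]
    have h2 : C.act y (C.act σ β) = 0 := by
      refine h y hy ⟨0, Submodule.zero_mem _, ?_⟩ _ ?_
      · rw [sub_zero]
        exact kills_of_cl h0 2
      · have h3 : C.act σ (C.act σ β) = C.act σ β := by rw [← C.act_comp, hS.pure.idem]
        rw [← h3]
        refine hN.kills S S 2 2 σ (by simpa using hS.pure.mem)
          (hS.pure.kills _ (by norm_num)) _ (act_mem0 C hS.pure.mem hβ) ?_
        rw [cl_act H]
        exact hS.pure.kills 4 (by norm_num) _ (by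
          have := H.cl_mem (C := C) (X := S) hβ
          simpa using this)
    rw [h1, h2, C.act_map_zero]
  · rintro h z hz ⟨D, hD, hk⟩ α hα
    have hα2 := (hN.deg S 2 α hα).1
    have hzα : C.act z α ∈ N R 2 := hN.stable S R 2 2 z (by
      rw [hdS]; exact gr_congr (by norm_num) hz) α hα
    have hD2 : C.Deg 2 D := by
      have h1 : Dec C S R ≤ C.gr (S.prod R) 2 := by
        refine Submodule.span_le.2 ?_
        rintro c ⟨D, D', hD, hD', rfl⟩
        exact gr_congr (by norm_num) (ext_mem' hD hD')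
      exact h1 hD
    have h1 : C.comp (C.comp σ (z - D)) ρ = 0 := by
      refine h _ (comp_mem2 hdS hdR hS.pure.mem hR.pure.mem (Submodule.sub_mem _ hz hD2))
        (cl_zero hS.pure hk) ?_
      simp only [comp_assoc C]
      rw [hR.pure.idem, ← comp_assoc C σ σ, hS.pure.idem]
    have h2 : C.act z α = C.act (C.comp (C.comp σ z) ρ) α := by
      rw [fac3, hS.eq α hα, hR.eq _ hzα]
    have h3 : C.act (C.comp (C.comp σ D) ρ) α = 0 :=
      dec_act hN hdS (dec_comp hD hS.pure.mem hR.pure.mem rfl rfl) hα2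
    rw [comp_sub, sub_comp, sub_eq_zero] at h1
    rw [h2, h1, h3]

/-! ### The transcendental projector of a surface -/

section surf

variable (hF : FibreProperty C) {q : C.A (S.prod S)} (hq : IsTranscendental H S q)
include hF hq

lemma fib_surf : Fib N S q := by
  obtain ⟨x, hx⟩ := isSurf_of hq
  intro T hT y hy hyy hfib
  have hy2 := (hN.deg _ 2 y hy).1
  have h1 : tp C y ∈ Submodule.span ℚ {c | ∃ (x : C.A S) (t : C.A T), C.Deg ((2 : ℤ) - 1) x ∧
      C.Deg 1 t ∧ c = C.ext x t} := by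
    refine hF S T 2 (tp C y) hT (tp_mem C hy2) fun t ht => ?_
    have e1 : C.down (fst S T) (C.mul (tp C y) (C.up (snd S T) t)) = C.act (tp C (tp C y)) t :=
      (act_tp C (tp C y) t).symm
    rw [e1, tp_tp]
    exact hfib t ht
  have h2 : C.act (tens C q (dg C T)) (tp C y) = tp C y := by
    rw [act_curry q (dg C T) hx.pure.self, comp_dg]
    have h3 := congrArg (tp C) hyy
    rw [tp_comp C (ch_comm C), hx.pure.self] at h3
    exact h3
  have h3 : C.act (tens C q (dg C T)) (tp C y) = 0 := by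
    refine eq_zero_of_span (H := H) h1 ?_
    rintro c ⟨x, t, hx', ht, rfl⟩
    rw [act_tens_ext C q _ (fun f c => ch_comm C _ _), hx.divisor x (by simpa using hx'),
      TheoryData.ext_zero_left]
  rw [h2] at h3
  rw [← tp_tp C y, h3, tp_zero]

omit hF hN in
/-- Vanishing of classes which are supported on curves. -/
lemma end_surf {ρ : C.A (R.prod R)} (hN : IsAbelJacobiKernel H N) (hρ : IsPure H 2 R ρ) {x : C.A S}
    (hx : IsSurf H S q x) {y : C.A (R.prod S)} (hyy : C.act (tens C ρ q) y = y)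
    (hspan : y ∈ Submodule.span ℚ {c | ∃ (T : 𝒱.Obj) (i : T ⟶ S) (w : C.A (R.prod T)), T.dim = 1 ∧
      C.Deg ((2 : ℤ) - 1) w ∧ c = C.down (prodMap (𝟙 R) i) w}) : y = 0 := by
  have hdq := hx.pure.dim
  have hdiv : ∀ (T : 𝒱.Obj) (i : T ⟶ S), T.dim = 1 → C.act q (C.push i 1) = 0 := by
    intro T i hT
    apply hx.divisor
    have := C.push_mem i (C.one_mem T)
    rw [hT, hdq] at this
    norm_num at this
    exact this
  have hdec : ∀ (T : 𝒱.Obj) (o : C.A T), dg C T = C.ext o 1 + oddProj C o + C.ext 1 o := by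
    intro T o
    rw [oddProj]
    abel
  rw [← hyy]
  refine eq_zero_of_span (H := H) hspan ?_
  rintro c ⟨T, i, w, hT, hw, rfl⟩
  obtain ⟨o, ho', ho1, ho2⟩ := exists_deg_one C T
  have ho : C.Deg 1 o := by
    rw [hT] at ho'
    exact_mod_cast ho'
  have hd : HasDegree C o 1 := fun Y => by
    rw [one_smul]
    exact ⟨ho2 Y, ho1 Y⟩
  have hw1 : C.Deg 1 w := by simpa using hw
  have e1 : C.down (prodMap (𝟙 R) i) w = C.comp w (C.graph i) := (comp_graph i w).symm
  have e2 : C.act (tens C ρ q) (C.down (prodMap (𝟙 R) i) w) =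
      C.comp (C.comp ρ w) (C.comp (C.graph i) q) := by
    rw [e1, act_curry ρ q hρ.self, ← comp_assoc C ρ, comp_assoc C]
  have e3 : C.comp (C.graph i) q = C.comp (oddProj C o) (C.comp (C.graph i) q) +
      C.ext 1 (C.act (C.comp (C.graph i) q) o) := by
    have e4 := dg_comp C (C.comp (C.graph i) q)
    have e5 : C.comp (C.ext o (1 : C.A T)) (C.comp (C.graph i) q) = 0 := by
      rw [ext_comp, C.act_comp, C.act_graph, hdiv T i hT, TheoryData.ext_zero_right]
    rw [hdec T o, add_comp, add_comp, e5, zero_add, ext_comp 1 o] at e4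
    exact e4.symm
  have e6 : C.comp (C.comp ρ w) (C.comp (oddProj C o) (C.comp (C.graph i) q)) = 0 := by
    have e7 := pure_div hN (hρ.tens (isPure_odd hT ho hd)) (by norm_num) hw1
    rw [act_curry ρ _ hρ.self] at e7
    rw [← comp_assoc C, e7, zero_comp]
  have e8 : C.act (tp C (C.comp ρ w)) (1 : C.A T) = 0 := by
    rw [tp_comp C (ch_comm C), hρ.self, C.act_comp]
    apply pure_zero hρ
    have h5 : tp C w ∈ C.gr (T.prod R) (T.dim + 0) := by
      have h6 := tp_mem C (Γ := w) hw1
      rw [hT]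
      exact gr_congr (by norm_num) h6
    have h7 := act_mem' C h5 (C.one_mem T)
    rw [add_zero] at h7
    exact h7
  rw [e2, e3, comp_add, e6, zero_add, comp_ext, e8, TheoryData.ext_zero_left]

omit hF in
lemma tst_surf : Tst H N S q := by
  obtain ⟨x, hx⟩ := isSurf_of hq
  intro R ρ hρ hfib y hy h0 hyy hact
  have hdq := hx.pure.dim
  have hdR := hρ.dim
  have hyN : y ∈ N (S.prod R) 2 := by
    have h1 : C.act (tens C q ρ) y = y := by rw [act_curry q ρ hx.pure.self, hyy]
    rw [← h1]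
    refine hN.kills _ _ 2 2 (tens C q ρ) ?_ ((hx.pure.tens hρ).kills _ (by norm_num)) y hy h0
    exact gr_congr (by push_cast; ring) (hx.pure.tens hρ).mem
  have hty : C.act (tens C ρ q) (tp C y) = tp C y := by
    rw [act_curry ρ q hρ.self]
    have h3 := congrArg (tp C) hyy
    rw [tp_comp C (ch_comm C), tp_comp C (ch_comm C), hx.pure.self, hρ.self,
      ← comp_assoc C] at h3
    exact h3
  have hspan := hx.pencil R 2 (tp C y) (tp_mem C hy) (by
    intro T i o hT ho hd hix
    -- the restriction to the curve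
    have e1 : C.up (prodMap (𝟙 R) i) (tp C y) = tp C (C.comp (C.graph i) y) := by
      rw [tp_comp C (ch_comm C)]
      exact pull_eq_comp i (tp C y)
    rw [e1]
    have h1 : C.comp (C.graph i) y = 0 := by
      refine hfib T hT _ ?_ ?_ fun t ht => ?_
      · have e2 : C.comp (C.graph i) y = tp C (C.pull (prodMap (𝟙 R) i) (tp C y)) := by
          rw [pull_eq_comp, tp_comp C (ch_comm C), tp_tp, tp_tp]
        rw [e2]
        refine N_pull hN _ (N_pull hN _ (N_pull hN _ hyN))
      · have h2 : y = C.comp (C.comp q y) ρ := hyy.symm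
        conv_lhs => rw [h2]
        rw [comp_assoc C, comp_assoc C (C.comp q y), hρ.idem, hyy]
      · rw [C.act_comp, C.act_graph]
        refine hact _ ?_
        have h2 := C.push_mem i (show t ∈ C.gr T 1 from ht)
        refine gr_congr ?_ h2
        rw [hT, hdq]; norm_num
    rw [h1, tp_zero])
  have h2 := end_surf hq hN hρ hx hty hspan
  rw [← tp_tp C y, h2, tp_zero]

omit hF in
/-- The Albanese kernel is contained in `CH^2` of the transcendental motive. -/
lemma eq_surf : ∀ α ∈ N S 2, C.act q α = α := by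
  intro α hα
  obtain ⟨x, π, hx2, hdx, hpen, hCK, h0, h4, hc, hE, h1, h3⟩ := hq.exists_ck
  have hdS := hq.dim_eq
  obtain ⟨hα2, hα0⟩ := hN.deg S 2 α hα
  have hα2' : α ∈ C.gr S 2 := by exact_mod_cast hα2
  have hsum : ∑ i ∈ Finset.range (2 * S.dim + 1), π i = dg C S := hCK.sum
  have key : α = ∑ i ∈ Finset.range (2 * S.dim + 1), C.act (π i) α := by
    rw [← act_sum, hsum, act_dg]
  have k0 : C.act (π 0) α = 0 := by
    rw [h0]
    exact act_ext_zero_of_lt (C.mul_mem hx2 hα2') (by rw [hdS]; norm_num)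
  have k4 : C.act (π 4) α = 0 := by
    rw [h4, act_ext' (q := 0) (by
      rw [one_mul]
      exact hasDegree_zero_of_cl H (by rw [hdS]; exact hα2) hα0), zero_smul]
  have k1 : C.act (π 1) α = 0 := by
    have h5 : π 1 ∈ LinearMap.ker ((actB C (X := S) (Y := S)).flip α) := by
      refine Submodule.span_le.2 ?_ h1
      rintro c ⟨T, o, f, g, hT, ho, hd, hf, hg, rfl⟩
      change C.act (C.comp f (C.comp (oddProj C o) g)) α = 0
      have h6 : C.act f α = 0 := by
        have h7 := act_mem' C (e := 0) (Γ := f) (by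
          rw [hdS]; exact gr_congr (by norm_num) hf) hα2'
        exact gr_zero_of_lt (by rw [hT]; norm_num) h7
      rw [C.act_comp, h6, C.act_map_zero]
    exact h5
  have k3 : C.act (π 3) α = 0 := by
    have h5 : π 3 ∈ LinearMap.ker ((actB C (X := S) (Y := S)).flip α) := by
      refine Submodule.span_le.2 ?_ h3
      rintro c ⟨T, o, f, g, hT, ho, hd, hf, hg, rfl⟩
      change C.act (C.comp f (C.comp (oddProj C o) g)) α = 0
      have h6 : C.act f α = 0 := hN.abel T _ (hN.stable S T 2 1 f (by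
        rw [hdS]; exact gr_congr (by norm_num) hf) α hα)
      rw [C.act_comp, h6, C.act_map_zero]
    exact h5
  have k2 : C.act (π 2) α = C.act q α := by
    have h5 : C.act (π 2 - q) α = 0 := dec_act hN hdS hE hα2'
    rw [C.act_sub, sub_eq_zero] at h5
    exact h5
  rw [hdS] at key
  simp only [Finset.sum_range_succ, Finset.sum_range_zero, Nat.reduceMul, zero_add, k0, k1, k2, k3,
    k4, add_zero] at key
  exact key.symm

theorem carrier_surf : Carrier H N S q := by
  obtain ⟨x, hx⟩ := isSurf_of hq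
  exact ⟨hx.pure, eq_surf hN hq, fib_surf hN hF hq, tst_surf hN hq⟩

end surf

end Pool.Agent.Q187.BC
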