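import Pool.Agent.Q187.AJ.Stmt

/-!
# Bloch's conjecture for correspondences between surfaces: definitions
-/

open CategoryTheory AlgebraicGeometry

universe u v w

namespace Pool.Agent.Q187.BCS

open Pool.Agent.H914 Pool.Agent.H914.VarClass Pool.Agent.H914.VarClass.Obj Pool.Agent.W492.BB
  Pool.Agent.W550.Corr Pool.Agent.TH133 Pool.Agent.Q187.AJS

variable {k : Type u} [Field k] {𝒱 : VarClass k} (C : TheoryData.{u, v, 0} 𝒱 ℚ) {K : Type w}
  [Field K] (H : WeilTheoryData.{u, v, w} C K) {X : 𝒱.Obj}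

/-- The class `D` on `S × R` is a linear combination of products of divisors. -/
def Decomposable {S R : 𝒱.Obj} (D : C.A (S.prod R)) : Prop :=
  Span C (fun c => ∃ (E : C.A S) (E' : C.A R), C.Deg 1 E ∧ C.Deg 1 E' ∧ c = cross C E E') D

/-- `V S ω` has the formal property of the condition that `ω` lies in `H^(2,0)(S)`, `S` a surface,
given by the theorem of Lefschetz on (1,1)-classes: for surfaces `S` and `R`, the action of a
correspondence `z` in `CH^2(S × R)` on `H^2` maps `H^(2,0)(R)` to zero if and only if it is the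
action of a linear combination of products of divisors. -/
def IsH20 (V : ∀ X : 𝒱.Obj, H.A X → Prop) : Prop :=
  ∀ (S R : 𝒱.Obj) (z : C.A (S.prod R)), S.dim = 2 → R.dim = 2 → C.Deg 2 z →
    ((∀ ω, V R ω → H.act (H.cl (C.up (sw R S) z)) ω = 0) ↔
      ∃ D, Decomposable C D ∧ Kills H (z - D) 2)

/-- Bloch's conjecture for the correspondences from the surface `S` to the surface `R`: if
`z` in `CH^2(S × R)` acts as zero on the forms `ω` in `H^(2,0)(R)`, then it acts as zero on the
zero-cycles `α` in the kernel of the Albanese map of `S`. -/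
def BlochFor (V : ∀ X : 𝒱.Obj, H.A X → Prop) (N : Fam C) (S R : 𝒱.Obj) : Prop :=
  ∀ z : C.A (S.prod R), C.Deg 2 z →
    (∀ ω, V R ω → H.act (H.cl (C.up (sw R S) z)) ω = 0) →
    ∀ α : C.A S, N.In 2 α → C.act z α = 0

/-- The class `z` of codimension `j` on `X` is algebraically trivial: it is a linear combination of
classes `W_* b` with `B` a curve, `W` a family of cycles on `X` parametrised by `B` and `b` a
zero-cycle of degree zero on `B`. -/
def AlgTriv (j : ℕ) (z : C.A X) : Prop :=
  Span C (fun c => ∃ (B : 𝒱.Obj) (W : C.A (B.prod X)) (b : C.A B), B.dim = 1 ∧ C.Deg j W ∧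
    C.Deg 1 b ∧ Triv C H b ∧ c = C.act W b) z

/-- An algebraically trivial class in the kernel of the Abel-Jacobi map is (up to a nonzero
multiple) given by families `W` acting as zero on `H^1(B)`. (For complex varieties: if `AJ(W_* b)`
is zero, then a multiple of `b` lies in the abelian subvariety of the Jacobian of `B` on which
`W_*` is zero; compose `W` with a projector onto it, which exists by Poincare's theorem.) -/
def SpreadProperty (N : Fam C) : Prop :=
  ∀ (X : 𝒱.Obj) (j : ℕ) (z : C.A X), AlgTriv C H j z → N.In j z →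
    Span C (fun c => ∃ (B : 𝒱.Obj) (W : C.A (B.prod X)) (b : C.A B), B.dim = 1 ∧ C.Deg j W ∧
      Kills H W 1 ∧ C.Deg 1 b ∧ Triv C H b ∧ c = C.act W b) z

/-- Any two curves are dominated by a third one. -/
def CommonCovers : Prop :=
  ∀ T₁ T₂ : 𝒱.Obj, T₁.dim = 1 → T₂.dim = 1 → ∃ (T : 𝒱.Obj) (f₁ : T ⟶ T₁) (f₂ : T ⟶ T₂),
    T.dim = 1 ∧ C.down f₁ 1 ≠ 0 ∧ C.down f₂ 1 ≠ 0

/-- The surface `S` is regular: its motive is the sum of `h^0(S)`, of `t_2(S)`, of a motive given by
divisors, and of `h^4(S)`, that is, `Δ = x × S + q + E + S × x` with `E` a linear combination of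
products of divisors. -/
def IsRegular (S : 𝒱.Obj) : Prop :=
  ∃ (x : C.A S) (q : C.A (S.prod S)), DegreeOne C x ∧ IsTranscendental C H S q ∧
    Decomposable C (diag C S - q - cross C x 1 - cross C 1 x)

/-- The class `z` on `S × T` is the sum of the pull-back of a class `α` in the Albanese kernel of
the surface `S` and of compositions `S → B → T` of divisors `f` on `S × B`, `B` a curve, and
classes `β` in the Albanese kernel of the surface `B × T`. -/
def FromZeroCycles (N : Fam C) {S T : 𝒱.Obj} (z : C.A (S.prod T)) : Prop :=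
  ∃ α : C.A S, N.In 2 α ∧ Span C (fun c => ∃ (B : 𝒱.Obj) (f : C.A (S.prod B))
    (β : C.A (B.prod T)), B.dim = 1 ∧ C.Deg 1 f ∧ N.In 2 β ∧ c = comp C f β) (z - C.up (fst S T) α)

/-- The class `z` on `T₁ × T₂ × T₃` is the sum of the pull-backs of classes `a`, `b` and `c` in the
Albanese kernels of the surfaces `T₁ × T₂`, `T₁ × T₃` and `T₂ × T₃`. -/
def IsSumOfPullbacks (N : Fam C) {T₁ T₂ T₃ : 𝒱.Obj} (z : C.A ((T₁.prod T₂).prod T₃)) : Prop :=
  ∃ (a : C.A (T₁.prod T₂)) (b : C.A (T₁.prod T₃)) (c : C.A (T₂.prod T₃)),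
    N.In 2 a ∧ N.In 2 b ∧ N.In 2 c ∧
    z = C.up (fst (T₁.prod T₂) T₃) a + C.up (prodMap (fst T₁ T₂) (𝟙 T₃)) b +
      C.up (prodMap (snd T₁ T₂) (𝟙 T₃)) c

/-- `Z` is the product of two curves. -/
def IsTwoCurves (Z : 𝒱.Obj) : Prop :=
  ∃ T₁ T₂ : 𝒱.Obj, T₁.dim = 1 ∧ T₂.dim = 1 ∧ Z = T₁.prod T₂

end Pool.Agent.Q187.BCS
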