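import Pool.Agent.Q187.BC.Cover
import Pool.Agent.Q187.BC.Stmt
import Pool.Agent.Q187.AJ.Conv

/-!
# The main theorem in terms of the definitions of the statement
-/

open CategoryTheory AlgebraicGeometry

universe u v w

namespace Pool.Agent.Q187.BCS

open Pool.Agent.H914 Pool.Agent.H914.VarClass Pool.Agent.H914.VarClass.Obj Pool.Agent.W492.BB
  Pool.Agent.W550.Corr Pool.Agent.Q187.AJS

open Pool.Agent.TH133 hiding tens

set_option linter.unusedSectionVars false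
set_option linter.unusedVariables false

variable {k : Type u} [Field k] {𝒱 : VarClass k}

variable {C : TheoryData.{u, v, 0} 𝒱 ℚ} [hC : IsChowProj C] {K : Type w} [Field K]
  {H : WeilTheoryData.{u, v, w} C K} [hH : IsWeilProj H] {X Y Z W T P S R : 𝒱.Obj}
  {N : Fam C} {V : ∀ X : 𝒱.Obj, H.A X → Prop}

lemma algTriv_conv {j : ℕ} {z : C.A X} : AlgTriv C H j z ↔ z ∈ BC.AlgT H X j := Iff.rfl

lemma spread_conv (h : SpreadProperty C H N) : BC.Spread H N := h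

lemma covers_conv (h : CommonCovers C) : BC.Covers C := h

lemma dec_conv {D : C.A (S.prod R)} : Decomposable C D ↔ D ∈ BC.Dec C S R := Iff.rfl

lemma bloch_conv (hV : IsH20 C H V) (hS : S.dim = 2) (hR : R.dim = 2) :
    BlochFor C H V N S R ↔ BC.Blo H N S R := by
  constructor
  · intro h z hz hD α hα
    exact h z hz ((hV S R z hS hR hz).2 hD) α hα
  · intro h z hz hD α hα
    exact h z hz ((hV S R z hS hR hz).1 hD) α hα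

lemma fromZero_conv {z : C.A (S.prod T)} : FromZeroCycles C N z ↔ BC.Curv N S T z := by
  constructor
  · rintro ⟨α, hα, h⟩
    exact ⟨α, hα, h⟩
  · rintro ⟨α, hα, h⟩
    exact ⟨α, hα, h⟩

lemma sum_conv {T₁ T₂ T₃ : 𝒱.Obj} {z : C.A ((T₁.prod T₂).prod T₃)} :
    IsSumOfPullbacks C N z ↔ BC.Pull3 N T₁ T₂ T₃ z := by
  constructor
  · rintro ⟨a, b, c, ha, hb, hc, h⟩
    exact ⟨a, ha, b, hb, c, hc, h⟩
  · rintro ⟨a, ha, b, hb, c, hc, h⟩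
    exact ⟨a, b, c, ha, hb, hc, h⟩

lemma dom_iff {Q : 𝒱.Obj → Prop} : Dominated C Q X ↔ ∃ Z, Q Z ∧
    ∃ (f : C.A (X.prod Z)) (g : C.A (Z.prod X)), f ∈ C.gr (X.prod Z) X.dim ∧
      g ∈ C.gr (Z.prod X) Z.dim ∧ ∀ x, C.act g (C.act f x) = x := by
  have e : ∀ (d : ℤ), d + ((0 : ℕ) : ℤ) - ((0 : ℕ) : ℤ) = d := fun d => by simp
  constructor
  · rintro ⟨Z, hZ, f, g, hf, hg, h⟩
    refine ⟨Z, hZ, f, g, ?_, ?_, h⟩
    · have hf' : f ∈ C.gr (X.prod Z) ((X.dim : ℤ) + ((0 : ℕ) : ℤ) - ((0 : ℕ) : ℤ)) := hf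
      rw [e] at hf'; exact hf'
    · have hg' : g ∈ C.gr (Z.prod X) ((Z.dim : ℤ) + ((0 : ℕ) : ℤ) - ((0 : ℕ) : ℤ)) := hg
      rw [e] at hg'; exact hg'
  · rintro ⟨Z, hZ, f, g, hf, hg, h⟩
    refine ⟨Z, hZ, f, g, ?_, ?_, h⟩
    · change f ∈ C.gr (X.prod Z) ((X.dim : ℤ) + ((0 : ℕ) : ℤ) - ((0 : ℕ) : ℤ))
      rw [e]; exact hf
    · change g ∈ C.gr (Z.prod X) ((Z.dim : ℤ) + ((0 : ℕ) : ℤ) - ((0 : ℕ) : ℤ))
      rw [e]; exact hg

include hC hH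

variable (hN : IsAbelJacobiKernel C H N) (hF : FibreProperty C) (hG : SpreadProperty C H N)
  (hV : IsH20 C H V) (hQ : ∀ S : 𝒱.Obj, S.dim = 2 → ∃ q, IsTranscendental C H S q)
include hN hF hG hV hQ

omit hN hF hG hV in
lemma hQ' : ∀ S : 𝒱.Obj, S.dim = 2 → ∃ q, Y148.BB.IsTranscendental H S q := fun S hS => by
  obtain ⟨q, hq⟩ := hQ S hS
  exact ⟨q, transcendental_conv hq⟩

theorem main_one (hS : S.dim = 2) (hT : T.dim = 1) :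
    List.TFAE [
      ∀ B : 𝒱.Obj, B.dim = 1 → BlochFor C H V N (T.prod B) S,
      ∀ B : 𝒱.Obj, B.dim = 1 → BlochFor C H V N S (T.prod B),
      ∀ z : C.A (S.prod T), AlgTriv C H 2 z → N.In 2 z → FromZeroCycles C N z] := by
  obtain ⟨q, hq⟩ := hQ' (H := H) hQ S hS
  obtain ⟨o, ho, hd⟩ := BC.exists_o (C := C) T hT
  have hN' := kernel_conv hN
  have h := BC.part_one hN' (fibre_conv hF) (spread_conv hG) (hQ' hQ)
    (BC.carrier_surf hN' (fibre_conv hF) hq) hT ho hd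
  have hTB : ∀ B : 𝒱.Obj, B.dim = 1 → (T.prod B).dim = 2 := fun B hB => by rw [dim_prod, hT, hB]
  have e1 : (∀ B : 𝒱.Obj, B.dim = 1 → BlochFor C H V N (T.prod B) S) ↔
      ∀ B : 𝒱.Obj, B.dim = 1 → BC.Blo H N (T.prod B) S :=
    forall_congr' fun B => forall_congr' fun hB => bloch_conv hV (hTB B hB) hS
  have e2 : (∀ B : 𝒱.Obj, B.dim = 1 → BlochFor C H V N S (T.prod B)) ↔
      ∀ B : 𝒱.Obj, B.dim = 1 → BC.Blo H N S (T.prod B) :=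
    forall_congr' fun B => forall_congr' fun hB => bloch_conv hV hS (hTB B hB)
  have e3 : (∀ z : C.A (S.prod T), AlgTriv C H 2 z → N.In 2 z → FromZeroCycles C N z) ↔
      ∀ w ∈ N (S.prod T) 2, w ∈ BC.AlgT H (S.prod T) 2 →
        C.act (TH133.tens C q (Y148.BB.oddProj C o)) w = 0 := by
    constructor
    · intro h w hw hwA
      exact (BC.gen_iff hN' hq hT ho hd hw).2 (fromZero_conv.1 (h w hwA hw))
    · intro h z hzA hz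
      exact fromZero_conv.2 ((BC.gen_iff hN' hq hT ho hd hz).1 (h z hz hzA))
  rw [e1, e2, e3]
  exact h

theorem main_reg (hS : S.dim = 2) (hT : T.dim = 1) (hR : IsRegular C H S) :
    (∀ B : 𝒱.Obj, B.dim = 1 → BlochFor C H V N (T.prod B) S) ↔
      ∀ z : C.A (S.prod T), AlgTriv C H 2 z → N.In 2 z →
        ∃ α : C.A S, N.In 2 α ∧ z = C.up (fst S T) α := by
  obtain ⟨x, q, hx, hq₀, hE⟩ := hR
  have hq := transcendental_conv hq₀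
  obtain ⟨o, ho, hd⟩ := BC.exists_o (C := C) T hT
  have hN' := kernel_conv hN
  have hx2 : C.Deg 2 x := by
    have h := hx.1
    rw [hS] at h
    exact_mod_cast h
  have h := (BC.part_one hN' (fibre_conv hF) (spread_conv hG) (hQ' hQ)
    (BC.carrier_surf hN' (fibre_conv hF) hq) hT ho hd).out 0 2
  have hTB : ∀ B : 𝒱.Obj, B.dim = 1 → (T.prod B).dim = 2 := fun B hB => by rw [dim_prod, hT, hB]
  have e1 : (∀ B : 𝒱.Obj, B.dim = 1 → BlochFor C H V N (T.prod B) S) ↔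
      ∀ B : 𝒱.Obj, B.dim = 1 → BC.Blo H N (T.prod B) S :=
    forall_congr' fun B => forall_congr' fun hB => bloch_conv hV (hTB B hB) hS
  rw [e1, h]
  constructor
  · intro h z hzA hz
    exact (BC.regular_iff hN' hS hx2 hE hT ho hd hz).1 (h z hz hzA)
  · intro h z hz hzA
    exact (BC.regular_iff hN' hS hx2 hE hT ho hd hz).2 (h z hzA hz)

theorem main_two (hc : CommonCovers C) :
    List.TFAE [
      ∀ S R : 𝒱.Obj, S.dim = 2 → R.dim = 2 → Dominated C IsTwoCurves S →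
        Dominated C IsTwoCurves R → BlochFor C H V N S R,
      ∀ T : 𝒱.Obj, T.dim = 1 → BlochFor C H V N (T.prod T) (T.prod T),
      ∀ (T₁ T₂ T₃ T₄ : 𝒱.Obj) (o₁ : C.A T₁) (o₂ : C.A T₂) (o₃ : C.A T₃) (o₄ : C.A T₄),
        T₁.dim = 1 → T₂.dim = 1 → T₃.dim = 1 → T₄.dim = 1 → DegreeOne C o₁ → DegreeOne C o₂ →
        DegreeOne C o₃ → DegreeOne C o₄ → ∀ z : C.A (((T₁.prod T₂).prod T₃).prod T₄), C.Deg 2 z →
        Triv C H z → C.act (tens C (tens C (tens C (odd C o₁) (odd C o₂)) (odd C o₃))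
          (odd C o₄)) z = 0,
      ∀ T₁ T₂ T₃ : 𝒱.Obj, T₁.dim = 1 → T₂.dim = 1 → T₃.dim = 1 →
        ∀ z : C.A ((T₁.prod T₂).prod T₃), AlgTriv C H 2 z → N.In 2 z → IsSumOfPullbacks C N z,
      ∀ T : 𝒱.Obj, T.dim = 1 → ∀ z : C.A ((T.prod T).prod T), AlgTriv C H 2 z → N.In 2 z →
        IsSumOfPullbacks C N z] := by
  have hN' := kernel_conv hN
  have h := BC.part_three hN' (fibre_conv hF) (hQ' hQ) (spread_conv hG) (covers_conv hc)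
  have e1 : (∀ S R : 𝒱.Obj, S.dim = 2 → R.dim = 2 → Dominated C IsTwoCurves S →
        Dominated C IsTwoCurves R → BlochFor C H V N S R) ↔
      ∀ S S' Z Z' : 𝒱.Obj, S.dim = 2 → S'.dim = 2 →
        (∃ T₁ T₂ : 𝒱.Obj, T₁.dim = 1 ∧ T₂.dim = 1 ∧ Z = T₁.prod T₂) →
        (∃ T₁ T₂ : 𝒱.Obj, T₁.dim = 1 ∧ T₂.dim = 1 ∧ Z' = T₁.prod T₂) →
        (∃ (f : C.A (S.prod Z)) (g : C.A (Z.prod S)), f ∈ C.gr (S.prod Z) S.dim ∧
          g ∈ C.gr (Z.prod S) Z.dim ∧ ∀ x, C.act g (C.act f x) = x) →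
        (∃ (f : C.A (S'.prod Z')) (g : C.A (Z'.prod S')), f ∈ C.gr (S'.prod Z') S'.dim ∧
          g ∈ C.gr (Z'.prod S') Z'.dim ∧ ∀ x, C.act g (C.act f x) = x) →
        BC.Blo H N S S' := by
    constructor
    · intro h S S' Z Z' hS hS' hZ hZ' h1 h2
      exact (bloch_conv hV hS hS').1 (h S S' hS hS' (dom_iff.2 ⟨Z, hZ, h1⟩) (dom_iff.2 ⟨Z', hZ', h2⟩))
    · intro h S S' hS hS' h1 h2
      obtain ⟨Z, hZ, h1⟩ := dom_iff.1 h1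
      obtain ⟨Z', hZ', h2⟩ := dom_iff.1 h2
      exact (bloch_conv hV hS hS').2 (h S S' Z Z' hS hS' hZ hZ' h1 h2)
  have e2 : (∀ T : 𝒱.Obj, T.dim = 1 → BlochFor C H V N (T.prod T) (T.prod T)) ↔
      ∀ T : 𝒱.Obj, T.dim = 1 → BC.Blo H N (T.prod T) (T.prod T) :=
    forall_congr' fun T => forall_congr' fun hT =>
      bloch_conv hV (by rw [dim_prod, hT]) (by rw [dim_prod, hT])
  have e3 : (∀ (T₁ T₂ T₃ T₄ : 𝒱.Obj) (o₁ : C.A T₁) (o₂ : C.A T₂) (o₃ : C.A T₃) (o₄ : C.A T₄),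
        T₁.dim = 1 → T₂.dim = 1 → T₃.dim = 1 → T₄.dim = 1 → DegreeOne C o₁ → DegreeOne C o₂ →
        DegreeOne C o₃ → DegreeOne C o₄ → ∀ z : C.A (((T₁.prod T₂).prod T₃).prod T₄), C.Deg 2 z →
        Triv C H z → C.act (tens C (tens C (tens C (odd C o₁) (odd C o₂)) (odd C o₃))
          (odd C o₄)) z = 0) ↔
      ∀ (T₁ T₂ T₃ T₄ : 𝒱.Obj) (o₁ : C.A T₁) (o₂ : C.A T₂) (o₃ : C.A T₃) (o₄ : C.A T₄),
        T₁.dim = 1 → T₂.dim = 1 → T₃.dim = 1 → T₄.dim = 1 → C.Deg 1 o₁ → C.Deg 1 o₂ →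
        C.Deg 1 o₃ → C.Deg 1 o₄ → HasDegree C o₁ 1 → HasDegree C o₂ 1 →
        HasDegree C o₃ 1 → HasDegree C o₄ 1 →
        ∀ z : C.A (((T₁.prod T₂).prod T₃).prod T₄), C.Deg 2 z → H.cl z = 0 →
          C.act (TH133.tens C (TH133.tens C (TH133.tens C (Y148.BB.oddProj C o₁)
            (Y148.BB.oddProj C o₂)) (Y148.BB.oddProj C o₃)) (Y148.BB.oddProj C o₄)) z = 0 := by
    constructor
    · intro h T₁ T₂ T₃ T₄ o₁ o₂ o₃ o₄ h₁ h₂ h₃ h₄ ho₁ ho₂ ho₃ ho₄ hd₁ hd₂ hd₃ hd₄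
      exact h T₁ T₂ T₃ T₄ o₁ o₂ o₃ o₄ h₁ h₂ h₃ h₄ ((degreeOne_of_curve h₁).2 ⟨ho₁, hd₁⟩)
        ((degreeOne_of_curve h₂).2 ⟨ho₂, hd₂⟩) ((degreeOne_of_curve h₃).2 ⟨ho₃, hd₃⟩)
        ((degreeOne_of_curve h₄).2 ⟨ho₄, hd₄⟩)
    · intro h T₁ T₂ T₃ T₄ o₁ o₂ o₃ o₄ h₁ h₂ h₃ h₄ ho₁ ho₂ ho₃ ho₄
      exact h T₁ T₂ T₃ T₄ o₁ o₂ o₃ o₄ h₁ h₂ h₃ h₄ ((degreeOne_of_curve h₁).1 ho₁).1
        ((degreeOne_of_curve h₂).1 ho₂).1 ((degreeOne_of_curve h₃).1 ho₃).1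
        ((degreeOne_of_curve h₄).1 ho₄).1 ((degreeOne_of_curve h₁).1 ho₁).2
        ((degreeOne_of_curve h₂).1 ho₂).2 ((degreeOne_of_curve h₃).1 ho₃).2
        ((degreeOne_of_curve h₄).1 ho₄).2
  have e4 : (∀ T₁ T₂ T₃ : 𝒱.Obj, T₁.dim = 1 → T₂.dim = 1 → T₃.dim = 1 →
        ∀ z : C.A ((T₁.prod T₂).prod T₃), AlgTriv C H 2 z → N.In 2 z → IsSumOfPullbacks C N z) ↔
      ∀ T₁ T₂ T₃ : 𝒱.Obj, T₁.dim = 1 → T₂.dim = 1 → T₃.dim = 1 →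
        ∀ z ∈ N ((T₁.prod T₂).prod T₃) 2, z ∈ BC.AlgT H ((T₁.prod T₂).prod T₃) 2 →
          BC.Pull3 N T₁ T₂ T₃ z := by
    constructor
    · intro h T₁ T₂ T₃ h₁ h₂ h₃ z hz hzA
      exact sum_conv.1 (h T₁ T₂ T₃ h₁ h₂ h₃ z hzA hz)
    · intro h T₁ T₂ T₃ h₁ h₂ h₃ z hzA hz
      exact sum_conv.2 (h T₁ T₂ T₃ h₁ h₂ h₃ z hz hzA)
  have e5 : (∀ T : 𝒱.Obj, T.dim = 1 → ∀ z : C.A ((T.prod T).prod T), AlgTriv C H 2 z →
        N.In 2 z → IsSumOfPullbacks C N z) ↔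
      ∀ T : 𝒱.Obj, T.dim = 1 → ∀ z ∈ N ((T.prod T).prod T) 2,
        z ∈ BC.AlgT H ((T.prod T).prod T) 2 → BC.Pull3 N T T T z := by
    constructor
    · intro h T hT z hz hzA
      exact sum_conv.1 (h T hT z hzA hz)
    · intro h T hT z hzA hz
      exact sum_conv.2 (h T hT z hz hzA)
  rw [e1, e2, e3, e4, e5]
  exact h

end Pool.Agent.Q187.BCS
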