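import Pool.Agent.Q187.AJ.Van
import Pool.Agent.Q187.RK.Mid

/-!
# Correspondences between surfaces and cycles of codimension two: first steps
-/

open CategoryTheory AlgebraicGeometry

universe u v w

namespace Pool.Agent.Q187.BC

open Pool.Agent.H914 Pool.Agent.H914.VarClass Pool.Agent.H914.VarClass.Obj Pool.Agent.W492.BB
  Pool.Agent.W550.Corr Pool.Agent.TH133 Pool.Agent.Y148.BB Pool.Agent.Q187.AJ

set_option linter.unusedSectionVars false
set_option linter.unusedVariables false

variable {k : Type u} [Field k] {𝒱 : VarClass k}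

variable {C : TheoryData.{u, v, 0} 𝒱 ℚ} [hC : IsChowProj C] {K : Type w} [Field K]
  {H : WeilTheoryData.{u, v, w} C K} [hH : IsWeilProj H] {X Y Z W T P S R B M : 𝒱.Obj}
  {N : ∀ X : 𝒱.Obj, ℕ → Submodule ℚ (C.A X)}

section chow

include hC

lemma act_wg (f : M ⟶ X) (w y : C.A M) : C.act (wg C f w) y = C.push f (w * y) := by
  have e1 : Obj.lift (𝟙 M) f ≫ fst M X = 𝟙 M := lift_fst _ _
  have e2 : Obj.lift (𝟙 M) f ≫ snd M X = f := lift_snd _ _
  rw [TheoryData.act_apply, wg, ← C.proj_right, ← C.push_comp, ← C.pull_comp, e1, e2, C.pull_id]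

lemma act_tp_wg (f : M ⟶ X) (w : C.A M) (x : C.A X) :
    C.act (tp C (wg C f w)) x = w * C.pull f x := by
  have e1 : Obj.lift (𝟙 M) f ≫ sw M X = Obj.lift f (𝟙 M) := by
    apply prod_ext <;> simp [sw]
  have e2 : Obj.lift f (𝟙 M) ≫ fst X M = f := lift_fst _ _
  have e3 : Obj.lift f (𝟙 M) ≫ snd X M = 𝟙 M := lift_snd _ _
  rw [tp_eq_push, wg, ← C.push_comp, e1, TheoryData.act_apply, ← C.proj_right, ← C.push_comp,
    ← C.pull_comp, e2, e3, C.push_id]

/-- The decomposition of a class on `X × T`, `T` a curve with a zero-cycle `o` of degree one. -/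
lemma split_curve (o : C.A T) (z : C.A (X.prod T)) :
    z = C.act (tens C (dg C X) (oddProj C o)) z +
      C.pull (fst X T) (C.push (fst X T) (C.pull (snd X T) o * z)) +
      C.pull (snd X T) o * C.pull (fst X T) (C.push (fst X T) z) := by
  have key : ∀ a b : C.A T, C.act (tens C (dg C X) (C.ext a b)) z =
      C.pull (snd X T) b * C.pull (fst X T) (C.push (fst X T) (C.pull (snd X T) a * z)) := by
    intro a b
    rw [tens_ext_right, dg_comp, C.act_comp, act_wg, act_tp_wg]
  have h1 : C.act (tens C (dg C X) (dg C T)) z = z := by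
    rw [tens_dg, act_dg]
  have h2 : dg C T = oddProj C o + C.ext o 1 + C.ext 1 o := by rw [oddProj]; abel
  rw [h2, RK.tens_add_right, RK.tens_add_right, C.act_add, C.act_add, key, key, map_one, one_mul,
    one_mul] at h1
  exact h1.symm

lemma gr_zero_of_lt {i : ℤ} (hi : (X.dim : ℤ) < i) {z : C.A X} (hz : z ∈ C.gr X i) : z = 0 :=
  hC.gr_top X i z hz hi

lemma push_fst_mem {i : ℤ} {z : C.A (X.prod Y)} (hz : z ∈ C.gr (X.prod Y) i) :
    C.push (fst X Y) z ∈ C.gr X (i - Y.dim) := by
  have h := C.push_mem (fst X Y) hz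
  refine gr_congr ?_ h
  rw [dim_prod]; push_cast; ring

end chow

include hC hH

lemma pure_div {n : ℕ} {p : C.A (P.prod P)} (hN : IsAbelJacobiKernel H N) (hp : IsPure H n P p)
    (hn : 3 ≤ n) {z : C.A P} (hz : C.Deg 1 z) : C.act p z = 0 := by
  have h1 : C.act p z ∈ C.gr P 1 := act_mem0 C hp.mem hz
  have h2 : H.cl (C.act p z) = 0 := by
    rw [cl_act H]
    exact hp.kills 2 (by omega) _ (by simpa using H.cl_mem (C := C) (X := P) hz)
  have h3 : C.act p (C.act p z) ∈ N P 1 :=
    hN.kills P P 1 1 p (by simpa using hp.mem) (hp.kills _ (by norm_num; omega)) _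
      (by simpa using h1) h2
  have h4 := hN.abel P _ h3
  rw [← C.act_comp, hp.idem] at h4
  exact h4

/-- The projector acts as zero in codimension zero. -/
lemma pure_zero {n : ℕ} {p : C.A (P.prod P)} (hp : IsPure H n P p) {z : C.A P}
    (hz : C.Deg 0 z) : C.act p z = 0 := by
  obtain ⟨c, rfl⟩ := hC.gr_zero _ z hz
  rw [act_map_smul, hp.one, smul_zero]

variable (hN : IsAbelJacobiKernel H N)
include hN

lemma N_mul_push {j : ℕ} {z : C.A (X.prod T)} (hz : z ∈ N (X.prod T) j) (hT : T.dim = 1)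
    {o : C.A T} (ho : C.Deg 1 o) : C.push (fst X T) (C.pull (snd X T) o * z) ∈ N X j := by
  rw [← act_wg]
  refine hN.stable _ _ j j _ ?_ z hz
  have h := wg_mem (fst X T) (C.pull_mem (snd X T) ho)
  refine gr_congr ?_ h
  rw [dim_prod, hT]; push_cast; ring

lemma N_push {j : ℕ} {z : C.A (X.prod T)} (hz : z ∈ N (X.prod T) (j + 1)) (hT : T.dim = 1) :
    C.push (fst X T) z ∈ N X j := by
  have h1 := act_wg (C := C) (fst X T) 1 z
  rw [one_mul] at h1
  rw [← h1]
  refine hN.stable _ _ (j + 1) j _ ?_ z hz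
  have h := wg_mem (fst X T) (C.one_mem (X.prod T))
  refine gr_congr ?_ h
  rw [dim_prod, hT]; push_cast; ring

lemma N_pull {j : ℕ} (f : X ⟶ Y) {z : C.A Y} (hz : z ∈ N Y j) : C.pull f z ∈ N X j := by
  rw [← C.act_cograph]
  exact hN.stable _ _ j j _ (by simpa using cograph_mem (C := C) f) z hz

/-- A class of codimension two in the kernel of the Abel-Jacobi map of `X × T`. -/
lemma split_N {z : C.A (X.prod T)} (hz : z ∈ N (X.prod T) 2) (hT : T.dim = 1) (o : C.A T) :
    z = C.act (tens C (dg C X) (oddProj C o)) z +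
      C.pull (fst X T) (C.push (fst X T) (C.pull (snd X T) o * z)) := by
  have h := split_curve o z
  rw [hN.abel X _ (N_push hN hz hT), map_zero, mul_zero, add_zero] at h
  exact h

end Pool.Agent.Q187.BC
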