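import Pool.Agent.Q187.BC.Gen

/-!
# Reduction to the powers of one curve
-/

open CategoryTheory AlgebraicGeometry

universe u v w

namespace Pool.Agent.Q187.BC

open Pool.Agent.H914 Pool.Agent.H914.VarClass Pool.Agent.H914.VarClass.Obj Pool.Agent.W492.BB
  Pool.Agent.W550.Corr Pool.Agent.TH133 Pool.Agent.Y148.BB Pool.Agent.Q187.AJ

set_option linter.unusedSectionVars false
set_option linter.unusedVariables false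

variable {k : Type u} [Field k] {𝒱 : VarClass k}

variable {C : TheoryData.{u, v, 0} 𝒱 ℚ} [hC : IsChowProj C] {K : Type w} [Field K]
  {H : WeilTheoryData.{u, v, w} C K} [hH : IsWeilProj H]
  {X Y Z Z' W T T₁ T₂ T₃ T₄ P S S' R B M : 𝒱.Obj}
  {N : ∀ X : 𝒱.Obj, ℕ → Submodule ℚ (C.A X)}

/-- Two curves are dominated by a third one. -/
def Covers (C : TheoryData.{u, v, 0} 𝒱 ℚ) : Prop :=
  ∀ T₁ T₂ : 𝒱.Obj, T₁.dim = 1 → T₂.dim = 1 → ∃ (T : 𝒱.Obj) (f₁ : T ⟶ T₁) (f₂ : T ⟶ T₂),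
    T.dim = 1 ∧ C.push f₁ 1 ≠ 0 ∧ C.push f₂ 1 ≠ 0

include hC

lemma push_one (f : X ⟶ Y) (hXY : X.dim = Y.dim) : ∃ d : ℚ, C.push f (1 : C.A X) = d • 1 := by
  have h := C.push_mem f (C.one_mem X)
  rw [hXY] at h
  simp only [sub_self, mul_zero, add_zero] at h
  exact hC.gr_zero Y _ h

lemma push_ne {f : X ⟶ Y} {g : Y ⟶ Z} (hXY : X.dim = Y.dim)
    (hf : C.push f (1 : C.A X) ≠ 0) (hg : C.push g (1 : C.A Y) ≠ 0) :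
    C.push (f ≫ g) (1 : C.A X) ≠ 0 := by
  obtain ⟨d, hd⟩ := push_one (C := C) f hXY
  rw [C.push_comp, hd, map_smul]
  refine smul_ne_zero ?_ hg
  rintro rfl
  exact hf (by rw [hd, zero_smul])

lemma cover4 (h : Covers C) (h₁ : T₁.dim = 1) (h₂ : T₂.dim = 1) (h₃ : T₃.dim = 1)
    (h₄ : T₄.dim = 1) : ∃ (T : 𝒱.Obj) (f₁ : T ⟶ T₁) (f₂ : T ⟶ T₂) (f₃ : T ⟶ T₃) (f₄ : T ⟶ T₄),
      T.dim = 1 ∧ C.push f₁ 1 ≠ 0 ∧ C.push f₂ 1 ≠ 0 ∧ C.push f₃ 1 ≠ 0 ∧ C.push f₄ 1 ≠ 0 := by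
  obtain ⟨A, a₁, a₂, hA, ha₁, ha₂⟩ := h T₁ T₂ h₁ h₂
  obtain ⟨B, b₁, b₂, hB, hb₁, hb₂⟩ := h T₃ T₄ h₃ h₄
  obtain ⟨T, f, g, hT, hf, hg⟩ := h A B hA hB
  exact ⟨T, f ≫ a₁, f ≫ a₂, g ≫ b₁, g ≫ b₂, hT, push_ne (by rw [hT, hA]) hf ha₁,
    push_ne (by rw [hT, hA]) hf ha₂, push_ne (by rw [hT, hB]) hg hb₁,
    push_ne (by rw [hT, hB]) hg hb₂⟩

lemma graph_mem'' (f : X ⟶ Y) : C.graph f ∈ C.gr (X.prod Y) Y.dim := by
  have h := C.push_mem (Obj.lift (𝟙 X) f) (C.one_mem X)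
  have e1 : (0 : ℤ) + 1 * (((X.prod Y).dim : ℤ) - (X.dim : ℤ)) = Y.dim := by
    rw [dim_prod]; push_cast; ring
  rwa [e1] at h

/-- A product of curves is dominated by the product of their covers. -/
lemma cover_dom {f₁ : T ⟶ T₁} {f₂ : T ⟶ T₂} (hT : T.dim = 1) (h₁ : T₁.dim = 1) (h₂ : T₂.dim = 1)
    (hf₁ : C.push f₁ 1 ≠ 0) (hf₂ : C.push f₂ 1 ≠ 0) :
    ∃ (f : C.A ((T₁.prod T₂).prod (T.prod T))) (g : C.A ((T.prod T).prod (T₁.prod T₂))),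
      f ∈ C.gr ((T₁.prod T₂).prod (T.prod T)) (T₁.prod T₂).dim ∧
      g ∈ C.gr ((T.prod T).prod (T₁.prod T₂)) (T.prod T).dim ∧
      ∀ x, C.act g (C.act f x) = x := by
  obtain ⟨d₁, hd₁⟩ := push_one (C := C) f₁ (by rw [hT, h₁])
  obtain ⟨d₂, hd₂⟩ := push_one (C := C) f₂ (by rw [hT, h₂])
  have hn₁ : d₁ ≠ 0 := by
    rintro rfl
    exact hf₁ (by rw [hd₁, zero_smul])
  have hn₂ : d₂ ≠ 0 := by
    rintro rfl
    exact hf₂ (by rw [hd₂, zero_smul])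
  have hone : C.ext (1 : C.A T) (1 : C.A T) = 1 := by
    rw [TheoryData.ext, map_one, map_one, one_mul]
  have hone' : C.ext (1 : C.A T₁) (1 : C.A T₂) = 1 := by
    rw [TheoryData.ext, map_one, map_one, one_mul]
  have h1 : C.push (prodMap f₁ f₂) (1 : C.A (T.prod T)) = (d₁ * d₂) • 1 := by
    have h2 : C.ext (d₁ • (1 : C.A T₁)) (d₂ • (1 : C.A T₂)) = (d₁ * d₂) • 1 := by
      rw [TheoryData.ext, map_smul, map_smul, map_one, map_one, smul_mul_smul_comm, one_mul]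
    rw [← hone, push_ext, hd₁, hd₂, h2]
  refine ⟨C.cograph (prodMap f₁ f₂), (d₁ * d₂)⁻¹ • C.graph (prodMap f₁ f₂), cograph_mem _,
    Submodule.smul_mem _ _ ?_, fun x => ?_⟩
  · refine gr_congr ?_ (graph_mem'' (C := C) (prodMap f₁ f₂))
    rw [dim_prod, dim_prod, h₁, h₂, hT]
  · have h3 : C.act ((d₁ * d₂)⁻¹ • C.graph (prodMap f₁ f₂)) (C.act (C.cograph (prodMap f₁ f₂)) x) =
        (d₁ * d₂)⁻¹ • C.act (C.graph (prodMap f₁ f₂)) (C.act (C.cograph (prodMap f₁ f₂)) x) := by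
      rw [TheoryData.act_apply, smul_mul_assoc, map_smul]
      rfl
    rw [h3, C.act_cograph, C.act_graph]
    have h4 := C.proj_right (prodMap f₁ f₂) 1 x
    rw [one_mul, h1, smul_mul_assoc, one_mul] at h4
    rw [h4, smul_smul, inv_mul_cancel₀ (mul_ne_zero hn₁ hn₂), one_smul]

include hH

/-- The reduction to the self-correspondences of `T × T`. -/
lemma blo_cover (hN : IsAbelJacobiKernel H N) (hc : Covers C)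
    (h : ∀ T : 𝒱.Obj, T.dim = 1 → Blo H N (T.prod T) (T.prod T)) (h₁ : T₁.dim = 1)
    (h₂ : T₂.dim = 1) (h₃ : T₃.dim = 1) (h₄ : T₄.dim = 1) :
    Blo H N (T₁.prod T₂) (T₃.prod T₄) := by
  obtain ⟨T, f₁, f₂, f₃, f₄, hT, hf₁, hf₂, hf₃, hf₄⟩ := cover4 hc h₁ h₂ h₃ h₄
  obtain ⟨f, g, hf, hg, hfg⟩ := cover_dom hT h₁ h₂ hf₁ hf₂
  obtain ⟨f', g', hf', hg', hfg'⟩ := cover_dom hT h₃ h₄ hf₃ hf₄
  exact blo_dom hN (by rw [dim_prod, h₁, h₂]) (by rw [dim_prod, h₃, h₄]) (by rw [dim_prod, hT])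
    (by rw [dim_prod, hT]) hf hg hfg hf' hfg' (h T hT)

variable (hN : IsAbelJacobiKernel H N) (hF : FibreProperty C)
  (hQ : ∀ S : 𝒱.Obj, S.dim = 2 → ∃ q, IsTranscendental H S q)
include hN hF hQ

/-- Cycles on the product of the first three curves suffice. -/
lemma blo_of_pull3 (h₁ : T₁.dim = 1) (h₂ : T₂.dim = 1) (h₃ : T₃.dim = 1) (h₄ : T₄.dim = 1)
    (h : ∀ z ∈ N ((T₁.prod T₂).prod T₃) 2, z ∈ AlgT H ((T₁.prod T₂).prod T₃) 2 →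
      Pull3 N T₁ T₂ T₃ z) : Blo H N (T₁.prod T₂) (T₃.prod T₄) := by
  obtain ⟨o₁, ho₁, hd₁⟩ := exists_o (C := C) T₁ h₁
  obtain ⟨o₂, ho₂, hd₂⟩ := exists_o (C := C) T₂ h₂
  obtain ⟨o₃, ho₃, hd₃⟩ := exists_o (C := C) T₃ h₃
  obtain ⟨o₄, ho₄, hd₄⟩ := exists_o (C := C) T₄ h₄
  have c12 := carrier_prod' hN hF hQ h₁ h₂ ho₁ ho₂ hd₁ hd₂
  have c34 := carrier_prod' hN hF hQ h₃ h₄ ho₃ ho₄ hd₃ hd₄
  have hp := ((isPure_odd (H := H) h₁ ho₁ hd₁).tens (isPure_odd h₂ ho₂ hd₂)).tens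
    (isPure_odd h₃ ho₃ hd₃)
  rw [blo_iff hN c12 c34]
  refine (V3_assoc c12.pure).1 (V3_of hN hF hp (fun w hw hwA => ?_)
    (fun x hx => pure_div hN hp (by norm_num) hx) h₄ ho₄ hd₄)
  exact of_pull3 hN h₁ h₂ h₃ ho₁ ho₂ ho₃ hd₁ hd₂ hd₃ (h w hw hwA)

variable (hG : Spread H N) (hc : Covers C)
include hG hc

/-- Products of curves. -/
theorem part_three :
    List.TFAE [
      ∀ S S' Z Z' : 𝒱.Obj, S.dim = 2 → S'.dim = 2 →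
        (∃ T₁ T₂ : 𝒱.Obj, T₁.dim = 1 ∧ T₂.dim = 1 ∧ Z = T₁.prod T₂) →
        (∃ T₁ T₂ : 𝒱.Obj, T₁.dim = 1 ∧ T₂.dim = 1 ∧ Z' = T₁.prod T₂) →
        (∃ (f : C.A (S.prod Z)) (g : C.A (Z.prod S)), f ∈ C.gr (S.prod Z) S.dim ∧
          g ∈ C.gr (Z.prod S) Z.dim ∧ ∀ x, C.act g (C.act f x) = x) →
        (∃ (f : C.A (S'.prod Z')) (g : C.A (Z'.prod S')), f ∈ C.gr (S'.prod Z') S'.dim ∧
          g ∈ C.gr (Z'.prod S') Z'.dim ∧ ∀ x, C.act g (C.act f x) = x) →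
        Blo H N S S',
      ∀ T : 𝒱.Obj, T.dim = 1 → Blo H N (T.prod T) (T.prod T),
      ∀ (T₁ T₂ T₃ T₄ : 𝒱.Obj) (o₁ : C.A T₁) (o₂ : C.A T₂) (o₃ : C.A T₃) (o₄ : C.A T₄),
        T₁.dim = 1 → T₂.dim = 1 → T₃.dim = 1 → T₄.dim = 1 → C.Deg 1 o₁ → C.Deg 1 o₂ →
        C.Deg 1 o₃ → C.Deg 1 o₄ → HasDegree C o₁ 1 → HasDegree C o₂ 1 → HasDegree C o₃ 1 →
        HasDegree C o₄ 1 → ∀ z : C.A (((T₁.prod T₂).prod T₃).prod T₄), C.Deg 2 z → H.cl z = 0 →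
          C.act (tens C (tens C (tens C (oddProj C o₁) (oddProj C o₂)) (oddProj C o₃))
            (oddProj C o₄)) z = 0,
      ∀ T₁ T₂ T₃ : 𝒱.Obj, T₁.dim = 1 → T₂.dim = 1 → T₃.dim = 1 →
        ∀ z ∈ N ((T₁.prod T₂).prod T₃) 2, z ∈ AlgT H ((T₁.prod T₂).prod T₃) 2 →
          Pull3 N T₁ T₂ T₃ z,
      ∀ T : 𝒱.Obj, T.dim = 1 → ∀ z ∈ N ((T.prod T).prod T) 2, z ∈ AlgT H ((T.prod T).prod T) 2 →
          Pull3 N T T T z] := by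
  have h := part_two hN hF hG hQ
  have h13 := h.out 0 2
  have h14 := h.out 0 3
  have h12 := h.out 0 1
  tfae_have 1 ↔ 3 := h13
  tfae_have 1 ↔ 4 := h14
  tfae_have 1 → 2 := fun h1 T hT => h12.1 h1 T T T T hT hT hT hT
  tfae_have 4 → 5 := fun h4 T hT => h4 T T T hT hT hT
  tfae_have 5 → 2 := fun h5 T hT => blo_of_pull3 hN hF hQ hT hT hT hT (h5 T hT)
  tfae_have 2 → 1 := fun h2 => h12.2 fun T₁ T₂ T₃ T₄ h₁ h₂ h₃ h₄ =>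
    blo_cover hN hc h2 h₁ h₂ h₃ h₄
  tfae_finish

end Pool.Agent.Q187.BC
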