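import Pool.Agent.Q187.BC.Alg

/-!
# Explicit forms of the conditions
-/

open CategoryTheory AlgebraicGeometry

universe u v w

namespace Pool.Agent.Q187.BC

open Pool.Agent.H914 Pool.Agent.H914.VarClass Pool.Agent.H914.VarClass.Obj Pool.Agent.W492.BB
  Pool.Agent.W550.Corr Pool.Agent.TH133 Pool.Agent.Y148.BB Pool.Agent.Q187.AJ

set_option linter.unusedSectionVars false
set_option linter.unusedVariables false

variable {k : Type u} [Field k] {𝒱 : VarClass k}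

variable {C : TheoryData.{u, v, 0} 𝒱 ℚ} [hC : IsChowProj C] {K : Type w} [Field K]
  {H : WeilTheoryData.{u, v, w} C K} [hH : IsWeilProj H] {X Y Z W T T₁ T₂ T₃ P S R B M : 𝒱.Obj}
  {N : ∀ X : 𝒱.Obj, ℕ → Submodule ℚ (C.A X)}

/-- Sums of pull-backs from the three products of two of the curves. -/
def Pull3 (N : ∀ X : 𝒱.Obj, ℕ → Submodule ℚ (C.A X)) (T₁ T₂ T₃ : 𝒱.Obj)
    (z : C.A ((T₁.prod T₂).prod T₃)) : Prop :=
  ∃ a ∈ N (T₁.prod T₂) 2, ∃ b ∈ N (T₁.prod T₃) 2, ∃ c ∈ N (T₂.prod T₃) 2,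
    z = C.pull (fst (T₁.prod T₂) T₃) a + C.pull (prodMap (fst T₁ T₂) (𝟙 T₃)) b +
      C.pull (prodMap (snd T₁ T₂) (𝟙 T₃)) c

section theta

variable {o₁ : C.A T₁} {o₂ : C.A T₂} {o₃ : C.A T₃}

include hC

lemma pull_fst_eq (c : C.A X) : C.pull (fst X T) c = C.ext c (1 : C.A T) := by
  rw [TheoryData.ext, map_one, mul_one]

/-- The projector on the third factor. -/
lemma theta3 : tens C (dg C (T₁.prod T₂)) (oddProj C o₃) =
    tens C (tens C (dg C T₁) (dg C T₂)) (oddProj C o₃) := by rw [tens_dg]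

/-- The projector on the second factor. -/
lemma theta2 : C.pull (prodMap (RK.ex T₁ T₂ T₃) (RK.ex T₁ T₂ T₃))
      (tens C (dg C (T₁.prod T₃)) (oddProj C o₂)) =
    tens C (tens C (dg C T₁) (oddProj C o₂)) (dg C T₃) := by
  rw [← tens_dg, RK.pull_ex_tens]

/-- The projector on the first factor. -/
lemma theta1 : C.pull (prodMap (aI T₁ T₂ T₃ ≫ sw T₁ (T₂.prod T₃)) (aI T₁ T₂ T₃ ≫ sw T₁ (T₂.prod T₃)))
      (tens C (dg C (T₂.prod T₃)) (oddProj C o₁)) =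
    tens C (tens C (oddProj C o₁) (dg C T₂)) (dg C T₃) := by
  rw [← prodMap_comp, C.pull_comp, RK.pull_sw_tens, ← tens_dg, pull_aI_tens]

lemma kill_pull {f : P ⟶ X.prod T} {g : X.prod T ⟶ P} (h1 : f ≫ g = 𝟙 P) (h2 : g ≫ f = 𝟙 _)
    {r : C.A (T.prod T)} (hr : C.act r 1 = 0) (c : C.A X) :
    C.act (C.pull (prodMap f f) (tens C (dg C X) r)) (C.pull (f ≫ fst X T) c) = 0 := by
  rw [C.pull_comp, act_pull_iso f g h1 h2, pull_fst_eq,
    act_tens_ext C _ _ (fun f c => ch_comm C _ _), hr, TheoryData.ext_zero_right, map_zero]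

end theta

include hC hH

variable (hN : IsAbelJacobiKernel H N)
include hN

lemma split_iso {f : P ⟶ X.prod T} {g : X.prod T ⟶ P} (h1 : f ≫ g = 𝟙 P) (h2 : g ≫ f = 𝟙 _)
    (hT : T.dim = 1) {o : C.A T} (ho : C.Deg 1 o) {z : C.A P} (hz : z ∈ N P 2) :
    ∃ a ∈ N X 2, z = C.act (C.pull (prodMap f f) (tens C (dg C X) (oddProj C o))) z +
      C.pull (f ≫ fst X T) a := by
  have hz' := N_pull hN g hz
  have h := split_N hN hz' hT o
  refine ⟨_, N_mul_push hN hz' hT ho, ?_⟩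
  have e1 : C.pull f (C.pull g z) = z := by rw [← C.pull_comp, h1, C.pull_id]
  have e2 := congrArg (C.pull f) h
  rw [map_add, ← act_pull_iso f g h1 h2, e1, ← C.pull_comp] at e2
  exact e2

section triple

variable {o₁ : C.A T₁} {o₂ : C.A T₂} {o₃ : C.A T₃} (h₁ : T₁.dim = 1) (h₂ : T₂.dim = 1)
  (h₃ : T₃.dim = 1) (ho₁ : C.Deg 1 o₁) (ho₂ : C.Deg 1 o₂) (ho₃ : C.Deg 1 o₃)
  (hd₁ : HasDegree C o₁ 1) (hd₂ : HasDegree C o₂ 1) (hd₃ : HasDegree C o₃ 1)
include h₁ h₂ h₃ ho₁ ho₂ ho₃ hd₁ hd₂ hd₃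

lemma pull3_of {z : C.A ((T₁.prod T₂).prod T₃)} (hz : z ∈ N ((T₁.prod T₂).prod T₃) 2)
    (h : C.act (tens C (tens C (oddProj C o₁) (oddProj C o₂)) (oddProj C o₃)) z = 0) :
    Pull3 N T₁ T₂ T₃ z := by
  have hf1 : (aI T₁ T₂ T₃ ≫ sw T₁ (T₂.prod T₃)) ≫ (sw (T₂.prod T₃) T₁ ≫ aJ T₁ T₂ T₃) = 𝟙 _ := by
    rw [Category.assoc, ← Category.assoc (sw T₁ _), sw_sw, Category.id_comp, aI_aJ]
  have hf2 : (sw (T₂.prod T₃) T₁ ≫ aJ T₁ T₂ T₃) ≫ (aI T₁ T₂ T₃ ≫ sw T₁ (T₂.prod T₃)) = 𝟙 _ := by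
    rw [Category.assoc, ← Category.assoc (aJ T₁ _ _), aJ_aI, Category.id_comp, sw_sw]
  have p1 : (aI T₁ T₂ T₃ ≫ sw T₁ (T₂.prod T₃)) ≫ fst (T₂.prod T₃) T₁ =
      prodMap (snd T₁ T₂) (𝟙 T₃) := by
    apply prod_ext <;> simp [aI, sw, prodMap]
  have p2 : RK.ex T₁ T₂ T₃ ≫ fst (T₁.prod T₃) T₂ = prodMap (fst T₁ T₂) (𝟙 T₃) := by
    apply prod_ext <;> simp [RK.ex, prodMap]
  obtain ⟨a, ha, e3⟩ := split_iso hN (f := 𝟙 _) (g := 𝟙 _) (Category.comp_id _)
    (Category.comp_id _) h₃ ho₃ hz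
  have e4 : prodMap (𝟙 ((T₁.prod T₂).prod T₃)) (𝟙 ((T₁.prod T₂).prod T₃)) = 𝟙 _ := prodMap_id _ _
  rw [Category.id_comp, e4, C.pull_id, theta3] at e3
  have m3 : tens C (tens C (dg C T₁) (dg C T₂)) (oddProj C o₃) ∈
      C.gr (((T₁.prod T₂).prod T₃).prod ((T₁.prod T₂).prod T₃)) ((T₁.prod T₂).prod T₃).dim :=
    (RK.pr_tens (RK.pr_tens (RK.pr_dg T₁) (RK.pr_dg T₂))
      ⟨(isPure_odd (H := H) h₃ ho₃ hd₃).mem, (isPure_odd (H := H) h₃ ho₃ hd₃).idem⟩).1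
  have m2 : tens C (tens C (dg C T₁) (oddProj C o₂)) (dg C T₃) ∈
      C.gr (((T₁.prod T₂).prod T₃).prod ((T₁.prod T₂).prod T₃)) ((T₁.prod T₂).prod T₃).dim :=
    (RK.pr_tens (RK.pr_tens (RK.pr_dg T₁)
      ⟨(isPure_odd (H := H) h₂ ho₂ hd₂).mem, (isPure_odd (H := H) h₂ ho₂ hd₂).idem⟩)
      (RK.pr_dg T₃)).1
  have hz3 := stable0 hN m3 hz
  obtain ⟨b, hb, e2⟩ := split_iso hN (f := RK.ex T₁ T₂ T₃) (g := RK.ex T₁ T₃ T₂)
    (RK.ex_ex _ _ _) (RK.ex_ex _ _ _) h₂ ho₂ hz3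
  rw [theta2, p2] at e2
  have hz2 := stable0 hN m2 hz3
  obtain ⟨c, hc, e1⟩ := split_iso hN hf1 hf2 h₁ ho₁ hz2
  rw [theta1, p1] at e1
  have e5 : C.act (tens C (tens C (oddProj C o₁) (dg C T₂)) (dg C T₃))
      (C.act (tens C (tens C (dg C T₁) (oddProj C o₂)) (dg C T₃))
        (C.act (tens C (tens C (dg C T₁) (dg C T₂)) (oddProj C o₃)) z)) = 0 := by
    rw [← C.act_comp, ← C.act_comp, tens_comp', tens_comp', tens_comp', tens_comp', dg_comp,
      dg_comp, dg_comp, comp_dg, comp_dg, comp_dg]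
    exact h
  refine ⟨a, ha, b, hb, c, hc, ?_⟩
  rw [e5, zero_add] at e1
  rw [e1] at e2
  rw [e2] at e3
  rw [e3]
  abel

lemma of_pull3 {z : C.A ((T₁.prod T₂).prod T₃)} (h : Pull3 N T₁ T₂ T₃ z) :
    C.act (tens C (tens C (oddProj C o₁) (oddProj C o₂)) (oddProj C o₃)) z = 0 := by
  obtain ⟨a, -, b, -, c, -, rfl⟩ := h
  have hf1 : (aI T₁ T₂ T₃ ≫ sw T₁ (T₂.prod T₃)) ≫ (sw (T₂.prod T₃) T₁ ≫ aJ T₁ T₂ T₃) = 𝟙 _ := by
    rw [Category.assoc, ← Category.assoc (sw T₁ _), sw_sw, Category.id_comp, aI_aJ]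
  have hf2 : (sw (T₂.prod T₃) T₁ ≫ aJ T₁ T₂ T₃) ≫ (aI T₁ T₂ T₃ ≫ sw T₁ (T₂.prod T₃)) = 𝟙 _ := by
    rw [Category.assoc, ← Category.assoc (aJ T₁ _ _), aJ_aI, Category.id_comp, sw_sw]
  have p1 : (aI T₁ T₂ T₃ ≫ sw T₁ (T₂.prod T₃)) ≫ fst (T₂.prod T₃) T₁ =
      prodMap (snd T₁ T₂) (𝟙 T₃) := by
    apply prod_ext <;> simp [aI, sw, prodMap]
  have p2 : RK.ex T₁ T₂ T₃ ≫ fst (T₁.prod T₃) T₂ = prodMap (fst T₁ T₂) (𝟙 T₃) := by
    apply prod_ext <;> simp [RK.ex, prodMap]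
  have r1 := (isPure_odd (H := H) h₁ ho₁ hd₁).one
  have r2 := (isPure_odd (H := H) h₂ ho₂ hd₂).one
  have r3 := (isPure_odd (H := H) h₃ ho₃ hd₃).one
  have k3 := kill_pull (f := 𝟙 ((T₁.prod T₂).prod T₃)) (g := 𝟙 _) (Category.comp_id _)
    (Category.comp_id _) r3 a
  have e4 : prodMap (𝟙 ((T₁.prod T₂).prod T₃)) (𝟙 ((T₁.prod T₂).prod T₃)) = 𝟙 _ := prodMap_id _ _
  rw [Category.id_comp, e4, C.pull_id, theta3] at k3
  have k2 := kill_pull (RK.ex_ex T₁ T₂ T₃) (RK.ex_ex T₁ T₃ T₂) r2 b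
  rw [theta2, p2] at k2
  have k1 := kill_pull hf1 hf2 r1 c
  rw [theta1, p1] at k1
  have f1 : tens C (tens C (oddProj C o₁) (oddProj C o₂)) (oddProj C o₃) =
      C.comp (tens C (tens C (oddProj C o₁) (dg C T₂)) (dg C T₃))
        (tens C (tens C (dg C T₁) (oddProj C o₂)) (oddProj C o₃)) := by
    rw [tens_comp', tens_comp', comp_dg, dg_comp, dg_comp]
  have f2 : tens C (tens C (oddProj C o₁) (oddProj C o₂)) (oddProj C o₃) =
      C.comp (tens C (tens C (dg C T₁) (oddProj C o₂)) (dg C T₃))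
        (tens C (tens C (oddProj C o₁) (dg C T₂)) (oddProj C o₃)) := by
    rw [tens_comp', tens_comp', comp_dg, dg_comp, dg_comp]
  have f3 : tens C (tens C (oddProj C o₁) (oddProj C o₂)) (oddProj C o₃) =
      C.comp (tens C (tens C (dg C T₁) (dg C T₂)) (oddProj C o₃))
        (tens C (tens C (oddProj C o₁) (oddProj C o₂)) (dg C T₃)) := by
    rw [tens_comp', tens_comp', comp_dg, dg_comp, dg_comp]
  rw [act_map_add, act_map_add]
  have g1 : C.act (tens C (tens C (oddProj C o₁) (oddProj C o₂)) (oddProj C o₃))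
      (C.pull (prodMap (snd T₁ T₂) (𝟙 T₃)) c) = 0 := by
    rw [f1, C.act_comp, k1, C.act_map_zero]
  have g2 : C.act (tens C (tens C (oddProj C o₁) (oddProj C o₂)) (oddProj C o₃))
      (C.pull (prodMap (fst T₁ T₂) (𝟙 T₃)) b) = 0 := by
    rw [f2, C.act_comp, k2, C.act_map_zero]
  have g3 : C.act (tens C (tens C (oddProj C o₁) (oddProj C o₂)) (oddProj C o₃))
      (C.pull (fst (T₁.prod T₂) T₃) a) = 0 := by
    rw [f3, C.act_comp, k3, C.act_map_zero]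
  rw [g1, g2, g3, add_zero, add_zero]

end triple

/-! ### Regular surfaces -/

lemma regular_iff {q : C.A (S.prod S)} {x : C.A S} (hS : S.dim = 2) (hx : C.Deg 2 x)
    (hE : dg C S - q - C.ext x 1 - C.ext 1 x ∈ Dec C S S) (hT : T.dim = 1) {o : C.A T}
    (ho : C.Deg 1 o) (hd : HasDegree C o 1) {z : C.A (S.prod T)} (hz : z ∈ N (S.prod T) 2) :
    C.act (tens C q (oddProj C o)) z = 0 ↔ ∃ α ∈ N S 2, z = C.pull (fst S T) α := by
  have hr := isPure_odd (H := H) hT ho hd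
  have hz2 : z ∈ C.gr (S.prod T) 2 := by exact_mod_cast (hN.deg _ 2 z hz).1
  constructor
  · intro h
    have h1 := split_N hN hz hT o
    refine ⟨_, N_mul_push hN hz hT ho, ?_⟩
    have key : ∀ v u : C.A S, C.act (tens C (C.ext v u) (oddProj C o)) z =
        C.act (tp C (wg C (snd S T) (C.pull (fst S T) u)))
          (C.act (oddProj C o) (C.push (snd S T) (C.pull (fst S T) v * z))) := by
      intro v u
      rw [tens_ext_left, C.act_comp, C.act_comp, act_wg]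
    have k0 : C.act (tens C (C.ext x (1 : C.A S)) (oddProj C o)) z = 0 := by
      have h3 : C.push (snd S T) (C.pull (fst S T) x * z) ∈ C.gr T 2 := by
        have h4 := C.push_mem (snd S T) (C.mul_mem (C.pull_mem (fst S T) hx) hz2)
        refine gr_congr ?_ h4
        rw [dim_prod, hS]; push_cast; ring
      rw [key, gr_zero_of_lt (by rw [hT]; norm_num) h3, C.act_map_zero, C.act_map_zero]
    have k4 : C.act (tens C (C.ext (1 : C.A S) x) (oddProj C o)) z = 0 := by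
      have h3 : C.push (snd S T) (C.pull (fst S T) 1 * z) ∈ C.gr T 0 := by
        have h4 := C.push_mem (snd S T) (C.mul_mem (C.pull_mem (fst S T) (C.one_mem S)) hz2)
        refine gr_congr ?_ h4
        rw [dim_prod, hS]; push_cast; ring
      rw [key, pure_zero hr h3, C.act_map_zero]
    have kE : ∀ E ∈ Dec C S S, C.act (tens C E (oddProj C o)) z = 0 := by
      intro E hE
      have h5 : Dec C S S ≤ LinearMap.ker (((actB C (X := S.prod T) (Y := S.prod T)).flip z) ∘ₗ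
          ((tensL (C := C) (X := S) (Y := S) (Z := T) (W := T)).flip (oddProj C o))) := by
        refine Submodule.span_le.2 ?_
        rintro c ⟨D, D', hD, hD', rfl⟩
        change C.act (tens C (C.ext D D') (oddProj C o)) z = 0
        have h3 : C.push (snd S T) (C.pull (fst S T) D * z) ∈ N T 1 := by
          rw [← act_wg]
          refine hN.stable _ _ 2 1 _ ?_ z hz
          have h := wg_mem (snd S T) (C.pull_mem (fst S T) (show D ∈ C.gr S 1 from hD))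
          refine gr_congr ?_ h
          rw [dim_prod, hT, hS]; norm_num
        rw [key, hN.abel T _ h3, C.act_map_zero, C.act_map_zero]
      exact h5 hE
    have e1 : dg C S = q + (C.ext x 1 + (C.ext 1 x + (dg C S - q - C.ext x 1 - C.ext 1 x))) := by
      abel
    have e2 : ∀ a b : C.A (S.prod S), tens C (a + b) (oddProj C o) =
        tens C a (oddProj C o) + tens C b (oddProj C o) := fun a b => by
      simp only [← tensL_apply, map_add, LinearMap.add_apply]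
    have h2 : C.act (tens C (dg C S) (oddProj C o)) z = 0 := by
      rw [e1, e2, e2, e2, C.act_add, C.act_add, C.act_add, h, k0, k4, kE _ hE, add_zero, add_zero,
        add_zero]
    rw [h2, zero_add] at h1
    exact h1
  · rintro ⟨α, -, rfl⟩
    rw [pull_fst_eq, act_tens_ext C _ _ (fun f c => ch_comm C _ _), hr.one,
      TheoryData.ext_zero_right]

end Pool.Agent.Q187.BC
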