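import Pool.Agent.Q187.BC.Main

/-!
# The condition on algebraically trivial cycles without projectors
-/

open CategoryTheory AlgebraicGeometry

universe u v w

namespace Pool.Agent.Q187.BC

open Pool.Agent.H914 Pool.Agent.H914.VarClass Pool.Agent.H914.VarClass.Obj Pool.Agent.W492.BB
  Pool.Agent.W550.Corr Pool.Agent.TH133 Pool.Agent.Y148.BB Pool.Agent.Q187.AJ

set_option linter.unusedSectionVars false
set_option linter.unusedVariables false

variable {k : Type u} [Field k] {𝒱 : VarClass k}

variable {C : TheoryData.{u, v, 0} 𝒱 ℚ} [hC : IsChowProj C] {K : Type w} [Field K]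
  {H : WeilTheoryData.{u, v, w} C K} [hH : IsWeilProj H]
  {X Y Z Z' W T T₁ T₂ T₃ P S S' R B M : 𝒱.Obj}
  {N : ∀ X : 𝒱.Obj, ℕ → Submodule ℚ (C.A X)}

/-- The sum of a pull-back from `S` and of compositions `S → B → T`. -/
def Curv (N : ∀ X : 𝒱.Obj, ℕ → Submodule ℚ (C.A X)) (S T : 𝒱.Obj) (z : C.A (S.prod T)) : Prop :=
  ∃ α ∈ N S 2, z - C.pull (fst S T) α ∈ Submodule.span ℚ {c | ∃ (B : 𝒱.Obj) (f : C.A (S.prod B))
    (β : C.A (B.prod T)), B.dim = 1 ∧ C.Deg 1 f ∧ β ∈ N (B.prod T) 2 ∧ c = C.comp f β}

include hC hH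

variable (hN : IsAbelJacobiKernel H N)
include hN

/-- The transcendental projector kills divisors on products with curves. -/
lemma q_div {q : C.A (S.prod S)} (hq : IsTranscendental H S q) (hB : B.dim = 1)
    {f : C.A (S.prod B)} (hf : C.Deg 1 f) : C.comp q f = 0 := by
  obtain ⟨x, hx⟩ := isSurf_of hq
  obtain ⟨o, ho, hd⟩ := exists_o (C := C) B hB
  have h1 : C.comp (C.comp q f) (oddProj C o) = 0 := by
    have h := pure_div hN (hx.pure.tens (isPure_odd hB ho hd)) (by norm_num) hf
    rw [act_curry q _ hx.pure.self] at h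
    exact h
  have h2 : C.comp (C.comp q f) (C.ext o (1 : C.A B)) = 0 := by
    rw [comp_ext, tp_comp C (ch_comm C), hx.pure.self, C.act_comp]
    have h3 : C.Deg 1 (C.act (tp C f) o) := by
      have h4 := act_mem' C (e := 0) (Γ := tp C f) (by
        have h5 := tp_mem C (Γ := f) hf
        rw [hB]; exact gr_congr (by norm_num) h5) ho
      rw [add_zero] at h4
      exact h4
    rw [hx.divisor _ h3, TheoryData.ext_zero_left]
  have h3 : C.comp (C.comp q f) (C.ext (1 : C.A B) o) = 0 := by
    rw [comp_ext, tp_comp C (ch_comm C), hx.pure.self, C.act_comp]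
    have h3 : C.Deg 0 (C.act (tp C f) (1 : C.A B)) := by
      have h4 := act_mem' C (e := 0) (Γ := tp C f) (by
        have h5 := tp_mem C (Γ := f) hf
        rw [hB]; exact gr_congr (by norm_num) h5) (C.one_mem B)
      rw [add_zero] at h4
      exact h4
    rw [pure_zero hx.pure h3, TheoryData.ext_zero_left]
  have h4 : dg C B = oddProj C o + (C.ext o (1 : C.A B) + C.ext (1 : C.A B) o) := by
    rw [oddProj]; abel
  rw [← comp_dg C (C.comp q f), h4, comp_add, comp_add, h1, h2, h3, add_zero, add_zero]

theorem gen_iff {q : C.A (S.prod S)} (hq : IsTranscendental H S q) (hT : T.dim = 1) {o : C.A T}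
    (ho : C.Deg 1 o) (hd : HasDegree C o 1) {z : C.A (S.prod T)} (hz : z ∈ N (S.prod T) 2) :
    C.act (tens C q (oddProj C o)) z = 0 ↔ Curv N S T z := by
  obtain ⟨x₀, hx₀⟩ := isSurf_of hq
  have hself := hx₀.pure.self
  have hr := isPure_odd (H := H) hT ho hd
  have hz2 : z ∈ C.gr (S.prod T) 2 := by exact_mod_cast (hN.deg _ 2 z hz).1
  constructor
  · intro h
    obtain ⟨x, π, hx, hdx, hpen, hCK, h0, h4, hc, hE, h1, h3⟩ := hq.exists_ck
    have hS := hq.dim_eq
    have hsum : ∑ i ∈ Finset.range (2 * S.dim + 1), π i = dg C S := hCK.sum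
    rw [hS] at hsum
    simp only [Finset.sum_range_succ, Finset.sum_range_zero, Nat.reduceMul, zero_add] at hsum
    have key : ∀ v u : C.A S, C.act (tens C (C.ext v u) (oddProj C o)) z =
        C.act (tp C (wg C (snd S T) (C.pull (fst S T) u)))
          (C.act (oddProj C o) (C.push (snd S T) (C.pull (fst S T) v * z))) := by
      intro v u
      rw [tens_ext_left, C.act_comp, C.act_comp, act_wg]
    have k0 : C.act (tens C (π 0) (oddProj C o)) z = 0 := by
      have h3 : C.push (snd S T) (C.pull (fst S T) x * z) ∈ C.gr T 2 := by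
        have h4 := C.push_mem (snd S T) (C.mul_mem (C.pull_mem (fst S T) hx) hz2)
        refine gr_congr ?_ h4
        rw [dim_prod, hS]; push_cast; ring
      rw [h0, key, gr_zero_of_lt (by rw [hT]; norm_num) h3, C.act_map_zero, C.act_map_zero]
    have k4 : C.act (tens C (π 4) (oddProj C o)) z = 0 := by
      have h3 : C.push (snd S T) (C.pull (fst S T) 1 * z) ∈ C.gr T 0 := by
        have h4 := C.push_mem (snd S T) (C.mul_mem (C.pull_mem (fst S T) (C.one_mem S)) hz2)
        refine gr_congr ?_ h4
        rw [dim_prod, hS]; push_cast; ring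
      rw [h4, key, pure_zero hr h3, C.act_map_zero]
    have kE : C.act (tens C (π 2 - q) (oddProj C o)) z = 0 := by
      have h5 : π 2 - q ∈ LinearMap.ker (((actB C (X := S.prod T) (Y := S.prod T)).flip z) ∘ₗ
          ((tensL (C := C) (X := S) (Y := S) (Z := T) (W := T)).flip (oddProj C o))) := by
        refine Submodule.span_le.2 ?_ hE
        rintro c ⟨D, D', hD, hD', rfl⟩
        change C.act (tens C (C.ext D D') (oddProj C o)) z = 0
        have h3 : C.push (snd S T) (C.pull (fst S T) D * z) ∈ N T 1 := by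
          rw [← act_wg]
          refine hN.stable _ _ 2 1 _ ?_ z hz
          have h := wg_mem (snd S T) (C.pull_mem (fst S T) (show D ∈ C.gr S 1 from hD))
          refine gr_congr ?_ h
          rw [dim_prod, hT, hS]; norm_num
        rw [key, hN.abel T _ h3, C.act_map_zero, C.act_map_zero]
      exact h5
    have k3 : C.act (tens C (π 3) (oddProj C o)) z = 0 := by
      have h5 : π 3 ∈ LinearMap.ker (((actB C (X := S.prod T) (Y := S.prod T)).flip z) ∘ₗ
          ((tensL (C := C) (X := S) (Y := S) (Z := T) (W := T)).flip (oddProj C o))) := by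
        refine Submodule.span_le.2 ?_ h3
        rintro c ⟨B, o', f, g, hB, ho', hd', hf, hg, rfl⟩
        change C.act (tens C (C.comp f (C.comp (oddProj C o') g)) (oddProj C o)) z = 0
        have e1 : tens C (C.comp f (C.comp (oddProj C o') g)) (oddProj C o) =
            C.comp (tens C f (dg C T)) (tens C (C.comp (oddProj C o') g) (oddProj C o)) := by
          rw [tens_comp'', dg_comp]
        have h6 : C.act (tens C f (dg C T)) z ∈ N (B.prod T) 1 := by
          refine hN.stable _ _ 2 1 _ ?_ z hz
          have h7 := tens_mem (C := C) hf (dg_mem C T)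
          refine gr_congr ?_ h7
          rw [dim_prod, hS, hT]; norm_num
        rw [e1, C.act_comp, hN.abel _ _ h6, C.act_map_zero]
      exact h5
    have k1 : C.act (tens C (π 1) (oddProj C o)) z ∈ Submodule.span ℚ {c | ∃ (B : 𝒱.Obj)
        (f : C.A (S.prod B)) (β : C.A (B.prod T)), B.dim = 1 ∧ C.Deg 1 f ∧ β ∈ N (B.prod T) 2 ∧
        c = C.comp f β} := by
      have h5 : π 1 ∈ (Submodule.span ℚ {c | ∃ (B : 𝒱.Obj)
        (f : C.A (S.prod B)) (β : C.A (B.prod T)), B.dim = 1 ∧ C.Deg 1 f ∧ β ∈ N (B.prod T) 2 ∧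
        c = C.comp f β}).comap (((actB C (X := S.prod T) (Y := S.prod T)).flip z) ∘ₗ
          ((tensL (C := C) (X := S) (Y := S) (Z := T) (W := T)).flip (oddProj C o))) := by
        refine Submodule.span_le.2 ?_ h1
        rintro c ⟨B, o', f, g, hB, ho', hd', hf, hg, rfl⟩
        have e1 : tens C (C.comp f (C.comp (oddProj C o') g)) (oddProj C o) =
            C.comp (tens C (C.comp f (oddProj C o')) (oddProj C o)) (tens C g (dg C T)) := by
          rw [tens_comp'', comp_dg, comp_assoc C]
        have hmem : C.comp f (oddProj C o') ∈ C.gr (S.prod B) (S.dim + (0 + 0)) := by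
          refine comp_mem C (e := 0) (e' := 0) (by rw [hS]; exact gr_congr (by norm_num) hf) ?_
          rw [add_zero]; exact (isPure_odd (H := H) hB ho' hd').mem
        have h6 : C.act (tens C (C.comp f (oddProj C o')) (oddProj C o)) z ∈ N (B.prod T) 2 := by
          refine hN.stable _ _ 2 2 _ ?_ z hz
          have h7 := tens_mem (C := C) hmem hr.mem
          refine gr_congr ?_ h7
          rw [dim_prod]; push_cast; ring
        have e2 : C.act (tens C (C.comp f (C.comp (oddProj C o') g)) (oddProj C o)) z =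
            C.comp (tp C g) (C.act (tens C (C.comp f (oddProj C o')) (oddProj C o)) z) := by
          rw [e1, C.act_comp, act_tens C (ch_comm C) g, comp_dg]
        have e3 : C.act (tens C (C.comp f (C.comp (oddProj C o') g)) (oddProj C o)) z ∈
            Submodule.span ℚ {c | ∃ (B : 𝒱.Obj)
        (f : C.A (S.prod B)) (β : C.A (B.prod T)), B.dim = 1 ∧ C.Deg 1 f ∧ β ∈ N (B.prod T) 2 ∧
        c = C.comp f β} :=
          Submodule.subset_span ⟨B, tp C g, _, hB, tp_mem C hg, h6, e2⟩
        exact e3
      exact h5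
    refine ⟨_, N_mul_push hN hz hT ho, ?_⟩
    have h6 := split_N hN hz hT o
    have e1 : dg C S = π 0 + (π 1 + (q + (π 2 - q) + (π 3 + π 4))) := by
      rw [← hsum]; abel
    have e2 : ∀ a b : C.A (S.prod S), tens C (a + b) (oddProj C o) =
        tens C a (oddProj C o) + tens C b (oddProj C o) := fun a b => by
      simp only [← tensL_apply, map_add, LinearMap.add_apply]
    have h7 : C.act (tens C (dg C S) (oddProj C o)) z =
        C.act (tens C (π 1) (oddProj C o)) z := by
      rw [e1, e2, e2, e2, e2, e2, C.act_add, C.act_add, C.act_add, C.act_add, C.act_add, h, k0, k4,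
        k3, kE]
      simp only [add_zero, zero_add]
    rw [h7] at h6
    have h8 := sub_eq_of_eq_add h6
    rw [h8]
    exact k1
  · rintro ⟨α, hα, hsp⟩
    have h1 : C.act (tens C q (oddProj C o)) (C.pull (fst S T) α) = 0 := by
      rw [pull_fst_eq, act_tens_ext C _ _ (fun f c => ch_comm C _ _), hr.one,
        TheoryData.ext_zero_right]
    have h2 : C.act (tens C q (oddProj C o)) (z - C.pull (fst S T) α) = 0 := by
      have h3 : z - C.pull (fst S T) α ∈ LinearMap.ker (C.actL (tens C q (oddProj C o))) := by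
        refine Submodule.span_le.2 ?_ hsp
        rintro c ⟨B, f, β, hB, hf, hβ, rfl⟩
        change C.act (tens C q (oddProj C o)) (C.comp f β) = 0
        rw [act_curry q _ hself, ← comp_assoc C q, q_div hN hq hB hf, zero_comp, zero_comp]
      exact h3
    rw [act_map_sub, h1, sub_zero] at h2
    exact h2

end Pool.Agent.Q187.BC
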