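import Pool.Agent.Q187.BC.Expl

/-!
# Bloch's conjecture and the kernel of the Abel-Jacobi map on algebraically trivial cycles
-/

open CategoryTheory AlgebraicGeometry

universe u v w

namespace Pool.Agent.Q187.BC

open Pool.Agent.H914 Pool.Agent.H914.VarClass Pool.Agent.H914.VarClass.Obj Pool.Agent.W492.BB
  Pool.Agent.W550.Corr Pool.Agent.TH133 Pool.Agent.Y148.BB Pool.Agent.Q187.AJ

set_option linter.unusedSectionVars false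
set_option linter.unusedVariables false

variable {k : Type u} [Field k] {𝒱 : VarClass k}

variable {C : TheoryData.{u, v, 0} 𝒱 ℚ} [hC : IsChowProj C] {K : Type w} [Field K]
  {H : WeilTheoryData.{u, v, w} C K} [hH : IsWeilProj H]
  {X Y Z Z' W T T₁ T₂ T₃ P S S' R B M : 𝒱.Obj}
  {N : ∀ X : 𝒱.Obj, ℕ → Submodule ℚ (C.A X)}

include hC hH

omit hH in
lemma exists_o (T : 𝒱.Obj) (hT : T.dim = 1) : ∃ o : C.A T, C.Deg 1 o ∧ HasDegree C o 1 := by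
  obtain ⟨o, ho', ho1, ho2⟩ := exists_deg_one C T
  refine ⟨o, ?_, fun Y => ?_⟩
  · rw [hT] at ho'
    exact_mod_cast ho'
  · rw [one_smul]
    exact ⟨ho2 Y, ho1 Y⟩

variable (hN : IsAbelJacobiKernel H N)
include hN

/-- Bloch's conjecture passes to dominated surfaces. -/
lemma blo_dom (hS : S.dim = 2) (hS' : S'.dim = 2) (hZ : Z.dim = 2) (hZ' : Z'.dim = 2)
    {f : C.A (S.prod Z)} {g : C.A (Z.prod S)} {f' : C.A (S'.prod Z')} {g' : C.A (Z'.prod S')}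
    (hf : f ∈ C.gr (S.prod Z) S.dim) (hg : g ∈ C.gr (Z.prod S) Z.dim)
    (hfg : ∀ x, C.act g (C.act f x) = x) (hf' : f' ∈ C.gr (S'.prod Z') S'.dim)
    (hfg' : ∀ x, C.act g' (C.act f' x) = x) (h : Blo H N Z Z') : Blo H N S S' := by
  rintro z hz ⟨D, hD, hk⟩ α hα
  have h1 := h (C.comp (C.comp g z) f') (comp_mem2' hZ hS hS' hg hf' hz)
    ⟨C.comp (C.comp g D) f', dec_comp hD hg hf' (by rw [hZ, hS]) (by rw [hS', hZ']), ?_⟩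
    (C.act f α) (hN.stable S Z 2 2 f (by simpa using hf) α hα)
  · rw [fac3, hfg] at h1
    rw [← hfg' (C.act z α), h1, C.act_map_zero]
  · intro a ha
    have e1 : C.comp (C.comp g z) f' - C.comp (C.comp g D) f' =
        C.comp (C.comp g (z - D)) f' := by
      rw [comp_sub, sub_comp]
    rw [e1, actH_comp, actH_comp]
    have h3 := actH_mem H (e := 0) (Γ := g) (by rw [add_zero]; exact hg) ha
    rw [mul_zero, add_zero] at h3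
    rw [hk _ h3, TheoryData.act_map_zero]
where
  comp_mem2' {S S' Z Z' : 𝒱.Obj} (hZ : Z.dim = 2) (hS : S.dim = 2) (hS' : S'.dim = 2)
      {g : C.A (Z.prod S)} {f' : C.A (S'.prod Z')} {z : C.A (S.prod S')}
      (hg : g ∈ C.gr (Z.prod S) Z.dim) (hf' : f' ∈ C.gr (S'.prod Z') S'.dim)
      (hz : C.Deg 2 z) : C.Deg 2 (C.comp (C.comp g z) f') := by
    have h1 : C.comp g z ∈ C.gr (Z.prod S') (Z.dim + (0 + 0)) :=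
      comp_mem C (e := 0) (e' := 0) (by rw [add_zero]; exact hg) (by
        rw [hS]; exact gr_congr (by norm_num) hz)
    have h2 := comp_mem C (e := 0 + 0) (e' := 0) h1 (by rw [add_zero]; exact hf')
    refine gr_congr ?_ h2
    rw [hZ]; norm_num

variable (hF : FibreProperty C) (hG : Spread H N)
  (hQ : ∀ S : 𝒱.Obj, S.dim = 2 → ∃ q, IsTranscendental H S q)
include hF hG hQ

omit hG in
/-- All products of curves are carried by the products of the projectors on `h^1`. -/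
lemma carrier_prod' {o₁ : C.A T₁} {o₂ : C.A T₂} (h₁ : T₁.dim = 1) (h₂ : T₂.dim = 1)
    (ho₁ : C.Deg 1 o₁) (ho₂ : C.Deg 1 o₂) (hd₁ : HasDegree C o₁ 1) (hd₂ : HasDegree C o₂ 1) :
    Carrier H N (T₁.prod T₂) (tens C (oddProj C o₁) (oddProj C o₂)) := by
  obtain ⟨q, hq⟩ := hQ (T₁.prod T₂) (by rw [dim_prod, h₁, h₂])
  exact carrier_prod hN h₁ h₂ ho₁ ho₂ hd₁ hd₂ hF hq

/-- One surface and one curve. -/
theorem part_one {σ : C.A (S.prod S)} (hσ : Carrier H N S σ) {o : C.A T} (hT : T.dim = 1)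
    (ho : C.Deg 1 o) (hd : HasDegree C o 1) :
    List.TFAE [
      ∀ B : 𝒱.Obj, B.dim = 1 → Blo H N (T.prod B) S,
      ∀ B : 𝒱.Obj, B.dim = 1 → Blo H N S (T.prod B),
      ∀ w ∈ N (S.prod T) 2, w ∈ AlgT H (S.prod T) 2 → C.act (tens C σ (oddProj C o)) w = 0] := by
  have key : (∀ B : 𝒱.Obj, B.dim = 1 → ∀ oB : C.A B, C.Deg 1 oB → HasDegree C oB 1 →
      V2 H S (T.prod B) σ (tens C (oddProj C o) (oddProj C oB))) ↔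
      ∀ w ∈ N (S.prod T) 2, w ∈ AlgT H (S.prod T) 2 → C.act (tens C σ (oddProj C o)) w = 0 := by
    rw [← V3_iff hN hF hG (hσ.pure.tens (isPure_odd hT ho hd)) (by norm_num)]
    constructor
    · intro h B oB hB hoB hdB
      exact (V3_assoc hσ.pure).2 (h B hB oB hoB hdB)
    · intro h B hB oB hoB hdB
      exact (V3_assoc hσ.pure).1 (h B oB hB hoB hdB)
  have k2 : (∀ B : 𝒱.Obj, B.dim = 1 → Blo H N S (T.prod B)) ↔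
      (∀ B : 𝒱.Obj, B.dim = 1 → ∀ oB : C.A B, C.Deg 1 oB → HasDegree C oB 1 →
        V2 H S (T.prod B) σ (tens C (oddProj C o) (oddProj C oB))) := by
    constructor
    · intro h B hB oB hoB hdB
      exact (blo_iff hN hσ (carrier_prod' hN hF hQ hT hB ho hoB hd hdB)).1 (h B hB)
    · intro h B hB
      obtain ⟨oB, hoB, hdB⟩ := exists_o (C := C) B hB
      exact (blo_iff hN hσ (carrier_prod' hN hF hQ hT hB ho hoB hd hdB)).2 (h B hB oB hoB hdB)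
  have k1 : (∀ B : 𝒱.Obj, B.dim = 1 → Blo H N (T.prod B) S) ↔
      (∀ B : 𝒱.Obj, B.dim = 1 → ∀ oB : C.A B, C.Deg 1 oB → HasDegree C oB 1 →
        V2 H S (T.prod B) σ (tens C (oddProj C o) (oddProj C oB))) := by
    constructor
    · intro h B hB oB hoB hdB
      have hc := carrier_prod' hN hF hQ hT hB ho hoB hd hdB
      exact V2_symm hc.pure hσ.pure ((blo_iff hN hc hσ).1 (h B hB))
    · intro h B hB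
      obtain ⟨oB, hoB, hdB⟩ := exists_o (C := C) B hB
      have hc := carrier_prod' hN hF hQ hT hB ho hoB hd hdB
      exact (blo_iff hN hc hσ).2 (V2_symm hσ.pure hc.pure (h B hB oB hoB hdB))
  tfae_have 1 ↔ 3 := k1.trans key
  tfae_have 2 ↔ 3 := k2.trans key
  tfae_finish

/-- Products of curves. -/
theorem part_two :
    List.TFAE [
      ∀ S S' Z Z' : 𝒱.Obj, S.dim = 2 → S'.dim = 2 →
        (∃ T₁ T₂ : 𝒱.Obj, T₁.dim = 1 ∧ T₂.dim = 1 ∧ Z = T₁.prod T₂) →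
        (∃ T₁ T₂ : 𝒱.Obj, T₁.dim = 1 ∧ T₂.dim = 1 ∧ Z' = T₁.prod T₂) →
        (∃ (f : C.A (S.prod Z)) (g : C.A (Z.prod S)), f ∈ C.gr (S.prod Z) S.dim ∧
          g ∈ C.gr (Z.prod S) Z.dim ∧ ∀ x, C.act g (C.act f x) = x) →
        (∃ (f : C.A (S'.prod Z')) (g : C.A (Z'.prod S')), f ∈ C.gr (S'.prod Z') S'.dim ∧
          g ∈ C.gr (Z'.prod S') Z'.dim ∧ ∀ x, C.act g (C.act f x) = x) →
        Blo H N S S',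
      ∀ T₁ T₂ T₃ T₄ : 𝒱.Obj, T₁.dim = 1 → T₂.dim = 1 → T₃.dim = 1 → T₄.dim = 1 →
        Blo H N (T₁.prod T₂) (T₃.prod T₄),
      ∀ (T₁ T₂ T₃ T₄ : 𝒱.Obj) (o₁ : C.A T₁) (o₂ : C.A T₂) (o₃ : C.A T₃) (o₄ : C.A T₄),
        T₁.dim = 1 → T₂.dim = 1 → T₃.dim = 1 → T₄.dim = 1 → C.Deg 1 o₁ → C.Deg 1 o₂ →
        C.Deg 1 o₃ → C.Deg 1 o₄ → HasDegree C o₁ 1 → HasDegree C o₂ 1 → HasDegree C o₃ 1 →
        HasDegree C o₄ 1 → ∀ z : C.A (((T₁.prod T₂).prod T₃).prod T₄), C.Deg 2 z → H.cl z = 0 →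
          C.act (tens C (tens C (tens C (oddProj C o₁) (oddProj C o₂)) (oddProj C o₃))
            (oddProj C o₄)) z = 0,
      ∀ T₁ T₂ T₃ : 𝒱.Obj, T₁.dim = 1 → T₂.dim = 1 → T₃.dim = 1 →
        ∀ z ∈ N ((T₁.prod T₂).prod T₃) 2, z ∈ AlgT H ((T₁.prod T₂).prod T₃) 2 →
          Pull3 N T₁ T₂ T₃ z] := by
  tfae_have 1 → 2 := by
    intro h T₁ T₂ T₃ T₄ h₁ h₂ h₃ h₄
    refine h (T₁.prod T₂) (T₃.prod T₄) _ _ (by rw [dim_prod, h₁, h₂]) (by rw [dim_prod, h₃, h₄])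
      ⟨T₁, T₂, h₁, h₂, rfl⟩ ⟨T₃, T₄, h₃, h₄, rfl⟩
      ⟨dg C _, dg C _, dg_mem C _, dg_mem C _, fun x => by rw [act_dg, act_dg]⟩
      ⟨dg C _, dg C _, dg_mem C _, dg_mem C _, fun x => by rw [act_dg, act_dg]⟩
  tfae_have 2 → 1 := by
    rintro h S S' Z Z' hS hS' ⟨T₁, T₂, h₁, h₂, rfl⟩ ⟨T₃, T₄, h₃, h₄, rfl⟩
      ⟨f, g, hf, hg, hfg⟩ ⟨f', g', hf', hg', hfg'⟩
    exact blo_dom hN hS hS' (by rw [dim_prod, h₁, h₂]) (by rw [dim_prod, h₃, h₄]) hf hg hfg hf' hfg'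
      (h T₁ T₂ T₃ T₄ h₁ h₂ h₃ h₄)
  have kV : ∀ (T₁ T₂ T₃ T₄ : 𝒱.Obj) (o₁ : C.A T₁) (o₂ : C.A T₂) (o₃ : C.A T₃) (o₄ : C.A T₄),
      T₁.dim = 1 → T₂.dim = 1 → T₃.dim = 1 → T₄.dim = 1 → C.Deg 1 o₁ → C.Deg 1 o₂ →
      C.Deg 1 o₃ → C.Deg 1 o₄ → HasDegree C o₁ 1 → HasDegree C o₂ 1 → HasDegree C o₃ 1 →
      HasDegree C o₄ 1 → (Blo H N (T₁.prod T₂) (T₃.prod T₄) ↔
        V3 H ((T₁.prod T₂).prod T₃) T₄ (tens C (tens C (oddProj C o₁) (oddProj C o₂))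
          (oddProj C o₃)) o₄) := by
    intro T₁ T₂ T₃ T₄ o₁ o₂ o₃ o₄ h₁ h₂ h₃ h₄ ho₁ ho₂ ho₃ ho₄ hd₁ hd₂ hd₃ hd₄
    have c12 := carrier_prod' hN hF hQ h₁ h₂ ho₁ ho₂ hd₁ hd₂
    have c34 := carrier_prod' hN hF hQ h₃ h₄ ho₃ ho₄ hd₃ hd₄
    rw [blo_iff hN c12 c34]
    exact (V3_assoc c12.pure).symm
  have kA : ∀ (T₁ T₂ T₃ T₄ : 𝒱.Obj) (o₁ : C.A T₁) (o₂ : C.A T₂) (o₃ : C.A T₃) (o₄ : C.A T₄),
      T₁.dim = 1 → T₂.dim = 1 → T₃.dim = 1 → T₄.dim = 1 → C.Deg 1 o₁ → C.Deg 1 o₂ →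
      C.Deg 1 o₃ → C.Deg 1 o₄ → HasDegree C o₁ 1 → HasDegree C o₂ 1 → HasDegree C o₃ 1 →
      HasDegree C o₄ 1 → (V3 H ((T₁.prod T₂).prod T₃) T₄ (tens C (tens C (oddProj C o₁)
        (oddProj C o₂)) (oddProj C o₃)) o₄ ↔
        ∀ z : C.A (((T₁.prod T₂).prod T₃).prod T₄), C.Deg 2 z → H.cl z = 0 →
          C.act (tens C (tens C (tens C (oddProj C o₁) (oddProj C o₂)) (oddProj C o₃))
            (oddProj C o₄)) z = 0) := by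
    intro T₁ T₂ T₃ T₄ o₁ o₂ o₃ o₄ h₁ h₂ h₃ h₄ ho₁ ho₂ ho₃ ho₄ hd₁ hd₂ hd₃ hd₄
    have hp := (((isPure_odd (H := H) h₁ ho₁ hd₁).tens (isPure_odd h₂ ho₂ hd₂)).tens
      (isPure_odd h₃ ho₃ hd₃)).tens (isPure_odd h₄ ho₄ hd₄)
    constructor
    · intro h z hz h0
      refine h _ (act_mem0 C hp.mem hz) ?_ ?_
      · rw [cl_act H, h0, TheoryData.act_map_zero]
      · rw [← C.act_comp, hp.idem]
    · intro h y hy h0 hyy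
      rw [← hyy]
      exact h y hy h0
  tfae_have 2 → 3 := by
    intro h T₁ T₂ T₃ T₄ o₁ o₂ o₃ o₄ h₁ h₂ h₃ h₄ ho₁ ho₂ ho₃ ho₄ hd₁ hd₂ hd₃ hd₄
    exact (kA T₁ T₂ T₃ T₄ o₁ o₂ o₃ o₄ h₁ h₂ h₃ h₄ ho₁ ho₂ ho₃ ho₄ hd₁ hd₂ hd₃ hd₄).1
      ((kV T₁ T₂ T₃ T₄ o₁ o₂ o₃ o₄ h₁ h₂ h₃ h₄ ho₁ ho₂ ho₃ ho₄ hd₁ hd₂ hd₃ hd₄).1
        (h T₁ T₂ T₃ T₄ h₁ h₂ h₃ h₄))
  tfae_have 3 → 2 := by
    intro h T₁ T₂ T₃ T₄ h₁ h₂ h₃ h₄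
    obtain ⟨o₁, ho₁, hd₁⟩ := exists_o (C := C) T₁ h₁
    obtain ⟨o₂, ho₂, hd₂⟩ := exists_o (C := C) T₂ h₂
    obtain ⟨o₃, ho₃, hd₃⟩ := exists_o (C := C) T₃ h₃
    obtain ⟨o₄, ho₄, hd₄⟩ := exists_o (C := C) T₄ h₄
    exact (kV T₁ T₂ T₃ T₄ o₁ o₂ o₃ o₄ h₁ h₂ h₃ h₄ ho₁ ho₂ ho₃ ho₄ hd₁ hd₂ hd₃ hd₄).2
      ((kA T₁ T₂ T₃ T₄ o₁ o₂ o₃ o₄ h₁ h₂ h₃ h₄ ho₁ ho₂ ho₃ ho₄ hd₁ hd₂ hd₃ hd₄).2
        (h T₁ T₂ T₃ T₄ o₁ o₂ o₃ o₄ h₁ h₂ h₃ h₄ ho₁ ho₂ ho₃ ho₄ hd₁ hd₂ hd₃ hd₄))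
  tfae_have 3 → 4 := by
    intro h T₁ T₂ T₃ h₁ h₂ h₃ z hz hzA
    obtain ⟨o₁, ho₁, hd₁⟩ := exists_o (C := C) T₁ h₁
    obtain ⟨o₂, ho₂, hd₂⟩ := exists_o (C := C) T₂ h₂
    obtain ⟨o₃, ho₃, hd₃⟩ := exists_o (C := C) T₃ h₃
    have hp := ((isPure_odd (H := H) h₁ ho₁ hd₁).tens (isPure_odd h₂ ho₂ hd₂)).tens
      (isPure_odd h₃ ho₃ hd₃)
    refine pull3_of hN h₁ h₂ h₃ ho₁ ho₂ ho₃ hd₁ hd₂ hd₃ hz ?_
    refine (V3_iff hN hF hG hp (by norm_num)).1 (fun B o hB ho hd => ?_) z hz hzA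
    exact (kA T₁ T₂ T₃ B o₁ o₂ o₃ o h₁ h₂ h₃ hB ho₁ ho₂ ho₃ ho hd₁ hd₂ hd₃ hd).2
      (h T₁ T₂ T₃ B o₁ o₂ o₃ o h₁ h₂ h₃ hB ho₁ ho₂ ho₃ ho hd₁ hd₂ hd₃ hd)
  tfae_have 4 → 3 := by
    intro h T₁ T₂ T₃ T₄ o₁ o₂ o₃ o₄ h₁ h₂ h₃ h₄ ho₁ ho₂ ho₃ ho₄ hd₁ hd₂ hd₃ hd₄
    have hp := ((isPure_odd (H := H) h₁ ho₁ hd₁).tens (isPure_odd h₂ ho₂ hd₂)).tens
      (isPure_odd h₃ ho₃ hd₃)
    exact (kA T₁ T₂ T₃ T₄ o₁ o₂ o₃ o₄ h₁ h₂ h₃ h₄ ho₁ ho₂ ho₃ ho₄ hd₁ hd₂ hd₃ hd₄).1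
      ((V3_iff hN hF hG hp (by norm_num)).2 (fun w hw hwA =>
        of_pull3 hN h₁ h₂ h₃ ho₁ ho₂ ho₃ hd₁ hd₂ hd₃ (h T₁ T₂ T₃ h₁ h₂ h₃ w hw hwA)) T₄ o₄ h₄ ho₄
          hd₄)
  tfae_finish

end Pool.Agent.Q187.BC
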