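import Pool.Agent.Q187.BC.Carrier
import Pool.Agent.Q187.RK.Sym

/-!
# Products of two curves
-/

open CategoryTheory AlgebraicGeometry

universe u v w

namespace Pool.Agent.Q187.BC

open Pool.Agent.H914 Pool.Agent.H914.VarClass Pool.Agent.H914.VarClass.Obj Pool.Agent.W492.BB
  Pool.Agent.W550.Corr Pool.Agent.TH133 Pool.Agent.Y148.BB Pool.Agent.Q187.AJ

set_option linter.unusedSectionVars false
set_option linter.unusedVariables false

variable {k : Type u} [Field k] {𝒱 : VarClass k}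

variable {C : TheoryData.{u, v, 0} 𝒱 ℚ} [hC : IsChowProj C] {K : Type w} [Field K]
  {H : WeilTheoryData.{u, v, w} C K} [hH : IsWeilProj H] {X Y Z W T T₁ T₂ P S R B M : 𝒱.Obj}
  {N : ∀ X : 𝒱.Obj, ℕ → Submodule ℚ (C.A X)}

section chow

include hC

lemma pull_inj {f : X ⟶ Y} {g : Y ⟶ X} (h : g ≫ f = 𝟙 Y) {a b : C.A Y}
    (hab : C.pull f a = C.pull f b) : a = b := by
  have h1 := congrArg (C.pull g) hab
  rwa [← C.pull_comp, ← C.pull_comp, h, C.pull_id, C.pull_id] at h1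

lemma comp_wg (b : Y ⟶ Z) (u : C.A Y) (Γ : C.A (X.prod Y)) :
    C.comp Γ (wg C b u) = C.push (prodMap (𝟙 X) b) (Γ * C.pull (snd X Y) u) := by
  have e5 : tp C (wg C (𝟙 Y) u) = wg C (𝟙 Y) u := by
    have e6 : Obj.lift (𝟙 Y) (𝟙 Y) ≫ sw Y Y = Obj.lift (𝟙 Y) (𝟙 Y) := by
      apply prod_ext <;> simp [sw]
    rw [tp_eq_push, wg, ← C.push_comp, e6]
  have e7 : prodMap (𝟙 X) (𝟙 Y) = 𝟙 (X.prod Y) := prodMap_id X Y
  have h1 := comp_tp_wg (𝟙 Y) u Γ
  rw [e5, e7, C.pull_id] at h1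
  rw [RK.wg_eq b u, ← comp_assoc C, h1, comp_graph]

/-- The fibres of a reassociated class. -/
lemma fibre_aI (w : C.A (R.prod (X.prod Y))) (t : C.A Y) :
    C.push (fst (R.prod X) Y) (C.pull (aI R X Y) w * C.pull (snd (R.prod X) Y) t) =
      C.comp w (wg C (fst X Y) (C.pull (snd X Y) t)) := by
  have e1 : aI R X Y ≫ snd R (X.prod Y) ≫ snd X Y = snd (R.prod X) Y := by
    simp [aI]
  have e2 : aJ R X Y ≫ fst (R.prod X) Y = prodMap (𝟙 R) (fst X Y) := by
    apply prod_ext <;> simp [aJ, prodMap]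
  rw [comp_wg, ← e1, C.pull_comp, C.pull_comp, ← map_mul,
    pull_iso C (aI R X Y) (aJ R X Y) aI_aJ aJ_aI, ← C.push_comp, e2]

end chow

include hC hH

variable (hN : IsAbelJacobiKernel H N)
include hN

lemma N_zero_of_lt {j : ℕ} (hj : X.dim < j) {z : C.A X} (hz : z ∈ N X j) : z = 0 :=
  gr_zero_of_lt (by exact_mod_cast hj) (hN.deg X j z hz).1

section

variable {o₁ : C.A T₁} {o₂ : C.A T₂} (h₁ : T₁.dim = 1) (h₂ : T₂.dim = 1) (ho₁ : C.Deg 1 o₁)
  (ho₂ : C.Deg 1 o₂) (hd₁ : HasDegree C o₁ 1) (hd₂ : HasDegree C o₂ 1)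
include h₁ h₂ ho₁ ho₂ hd₁ hd₂

omit h₁ hd₁ ho₁ hd₂ in
lemma eq_prod_right (h₁ : T₁.dim = 1) {α : C.A (T₁.prod T₂)} (hα : α ∈ N (T₁.prod T₂) 2) :
    C.act (tens C (dg C T₁) (oddProj C o₂)) α = α := by
  have h := split_N hN hα h₂ o₂
  rw [N_zero_of_lt hN (by rw [h₁]; norm_num) (N_mul_push hN hα h₂ ho₂), map_zero, add_zero] at h
  exact h.symm

omit ho₂ hd₁ hd₂ in
lemma eq_prod_left {α : C.A (T₁.prod T₂)} (hα : α ∈ N (T₁.prod T₂) 2) :
    C.act (tens C (oddProj C o₁) (dg C T₂)) α = α := by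
  have h := eq_prod_right hN h₁ ho₁ h₂ (N_pull hN (sw T₂ T₁) hα)
  have h3 := act_pull_iso (sw T₂ T₁) (sw T₁ T₂) sw_sw sw_sw (tens C (oddProj C o₁) (dg C T₂)) α
  rw [RK.pull_sw_tens, h] at h3
  exact (pull_inj sw_sw h3).symm

lemma eq_prod : ∀ α ∈ N (T₁.prod T₂) 2,
    C.act (tens C (oddProj C o₁) (oddProj C o₂)) α = α := by
  intro α hα
  have h := eq_prod_left hN h₁ h₂ ho₁ hα
  have h' := eq_prod_right hN h₂ ho₂ h₁ hα
  have e : tens C (oddProj C o₁) (oddProj C o₂) =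
      C.comp (tens C (oddProj C o₁) (dg C T₂)) (tens C (dg C T₁) (oddProj C o₂)) := by
    rw [tens_comp', comp_dg, dg_comp]
  rw [e, C.act_comp, h, h']

lemma pure_prod : IsPure H 2 (T₁.prod T₂) (tens C (oddProj C o₁) (oddProj C o₂)) :=
  (isPure_odd h₁ ho₁ hd₁).tens (isPure_odd h₂ ho₂ hd₂)

end

/-- The multiplicities of divisors in a class of the Abel-Jacobi kernel are zero. -/
lemma dec_right (hT : T.dim = 1) (hR : R.dim = 2) {y : C.A (T.prod R)} (hy : y ∈ N (T.prod R) 2)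
    {E : C.A (R.prod R)} (hE : E ∈ Dec C R R) : C.comp y E = 0 := by
  have h1 : Dec C R R ≤ LinearMap.ker (compL C (X := T) (Y := R) (Z := R) y) := by
    refine Submodule.span_le.2 ?_
    rintro c ⟨D, D', hD, hD', rfl⟩
    change C.comp y (C.ext D D') = 0
    rw [comp_ext]
    have h2 : C.act (tp C y) D ∈ N T 1 := by
      have e1 : C.act (tp C y) D = C.act (wg C (fst T R) (C.pull (snd T R) D)) y := by
        rw [act_wg, act_tp, ch_comm C]
      rw [e1]
      refine hN.stable _ _ 2 1 _ ?_ y hy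
      have h := wg_mem (fst T R) (C.pull_mem (snd T R) hD)
      refine gr_congr ?_ h
      rw [dim_prod, hT, hR]; norm_num
    rw [hN.abel T _ h2, TheoryData.ext_zero_left]
  exact h1 hE

/-- Cycles on `T × R` in the Abel-Jacobi kernel whose fibres over `T` vanish. -/
lemma fib_of (hF : FibreProperty C) {ρ q : C.A (R.prod R)} (hρ : IsPure H 2 R ρ)
    (hq : IsTranscendental H R q) : Fib N R ρ := by
  intro T hT y hy hyy hfib
  have hdR := hρ.dim
  have hy2 := (hN.deg _ 2 y hy).1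
  have hspan : y ∈ Submodule.span ℚ {c | ∃ (t : C.A T) (x : C.A R), C.Deg 1 t ∧
      C.Deg 1 x ∧ c = C.ext t x} := by
    have h1 : tp C y ∈ Submodule.span ℚ {c | ∃ (x : C.A R) (t : C.A T), C.Deg ((2 : ℤ) - 1) x ∧
        C.Deg 1 t ∧ c = C.ext x t} := by
      refine hF R T 2 (tp C y) hT (tp_mem C hy2) fun t ht => ?_
      have e1 : C.down (fst R T) (C.mul (tp C y) (C.up (snd R T) t)) = C.act (tp C (tp C y)) t :=
        (act_tp C (tp C y) t).symm
      rw [e1, tp_tp]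
      exact hfib t ht
    have h2 : Submodule.span ℚ {c | ∃ (x : C.A R) (t : C.A T), C.Deg ((2 : ℤ) - 1) x ∧
        C.Deg 1 t ∧ c = C.ext x t} ≤ (Submodule.span ℚ {c | ∃ (t : C.A T) (x : C.A R),
          C.Deg 1 t ∧ C.Deg 1 x ∧ c = C.ext t x}).comap (C.pull (sw T R)).toLinearMap := by
      refine Submodule.span_le.2 ?_
      rintro c ⟨x, t, hx, ht, rfl⟩
      refine Submodule.subset_span ⟨t, x, ht, by simpa using hx, ?_⟩
      exact tp_ext x t
    have h3 := h2 h1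
    rw [Submodule.mem_comap] at h3
    have h4 : (C.pull (sw T R)).toLinearMap (tp C y) = y := tp_tp C y
    rw [h4] at h3
    exact h3
  have key : ∀ Γ : C.A (R.prod R), (∀ x, C.Deg 1 x → C.act Γ x = 0) → C.comp y Γ = 0 := by
    intro Γ hΓ
    have h1 : Submodule.span ℚ {c | ∃ (t : C.A T) (x : C.A R), C.Deg 1 t ∧
        C.Deg 1 x ∧ c = C.ext t x} ≤
          LinearMap.ker ((compL C (X := T) (Y := R) (Z := R)).flip Γ) := by
      refine Submodule.span_le.2 ?_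
      rintro c ⟨t, x, ht, hx, rfl⟩
      change C.comp (C.ext t x) Γ = 0
      rw [ext_comp, hΓ x hx, TheoryData.ext_zero_right]
    exact h1 hspan
  obtain ⟨x, π, hx2, hdx, hpen, hCK, h0, h4, hc, hE, h1, h3⟩ := hq.exists_ck
  have k0 : C.comp y (π 0) = 0 := key _ fun x' hx' => by
    rw [h0]
    exact act_ext_zero_of_lt (C.mul_mem hx2 hx') (by rw [hdR]; norm_num)
  have k4 : C.comp y (π 4) = 0 := key _ fun x' hx' => by
    rw [h4]
    refine act_ext_zero_of_lt (i := 1) ?_ (by rw [hdR]; norm_num)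
    rw [one_mul]
    exact hx'
  have k3 : C.comp y (π 3) = 0 := key _ fun x' hx' => by
    have h5 : π 3 ∈ LinearMap.ker ((actB C (X := R) (Y := R)).flip x') := by
      refine Submodule.span_le.2 ?_ h3
      rintro c ⟨T', o, f, g, hT', ho, hd, hf, hg, rfl⟩
      change C.act (C.comp f (C.comp (oddProj C o) g)) x' = 0
      have h7 := act_mem' C (e := -1) (Γ := f) (by
        rw [hdR]; exact gr_congr (by norm_num) hf) hx'
      rw [C.act_comp, C.act_comp, pure_zero (isPure_odd (H := H) hT' ho hd) (by simpa using h7),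
        C.act_map_zero]
    exact h5
  have k2 : C.comp y (π 2) = 0 := by
    have h5 : C.comp y q = 0 := key q fun x' hx' => hq.divisor x' hx'
    have h6 := dec_right hN hT hdR hy hE
    rw [comp_sub, h5, sub_zero] at h6
    exact h6
  have k1 : C.comp (C.comp y (π 1)) ρ = 0 := by
    rw [comp_assoc C]
    refine key _ fun x' hx' => ?_
    have hπ1 : π 1 ∈ C.gr (R.prod R) R.dim := hCK.deg 1
    have h5 : C.act (π 1) x' ∈ C.gr R 1 := act_mem0 C hπ1 hx'
    have h6 : H.cl (C.act (π 1) x') = 0 := by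
      rw [cl_act H]
      exact hCK.act_ne 1 2 _ (by norm_num) (by
        have := H.cl_mem (C := C) (X := R) hx'
        simpa using this)
    have h7 : C.act ρ (C.act (π 1) x') ∈ N R 1 :=
      hN.kills R R 1 1 ρ (by simpa using hρ.mem) (hρ.kills _ (by norm_num)) _
        (by simpa using h5) h6
    rw [C.act_comp, hN.abel R _ h7]
  have hsum : ∑ i ∈ Finset.range (2 * R.dim + 1), π i = dg C R := hCK.sum
  have h8 : C.comp (C.comp y (dg C R)) ρ = y := by rw [comp_dg, hyy]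
  rw [← h8, ← hsum, hdR]
  simp only [Finset.sum_range_succ, Finset.sum_range_zero, Nat.reduceMul, zero_add, comp_add,
    k0, k1, k2, k3, k4, add_zero]

section tst

variable {o₁ : C.A T₁} {o₂ : C.A T₂} (h₁ : T₁.dim = 1) (h₂ : T₂.dim = 1) (ho₁ : C.Deg 1 o₁)
  (ho₂ : C.Deg 1 o₂) (hd₁ : HasDegree C o₁ 1) (hd₂ : HasDegree C o₂ 1)
include h₁ h₂ ho₁ ho₂ hd₁ hd₂

lemma tst_prod (hF : FibreProperty C) : Tst H N (T₁.prod T₂) (tens C (oddProj C o₁) (oddProj C o₂)) := by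
  intro R ρ hρ hfib y hy h0 hyy hact
  have hp1 := isPure_odd (H := H) h₁ ho₁ hd₁
  have hp2 := isPure_odd (H := H) h₂ ho₂ hd₂
  have hπ := hp1.tens hp2
  have hdR := hρ.dim
  have hd12 : (T₁.prod T₂).dim = 2 := hπ.dim
  have hyN : y ∈ N ((T₁.prod T₂).prod R) 2 := by
    have h1 : C.act (tens C (tens C (oddProj C o₁) (oddProj C o₂)) ρ) y = y := by
      rw [act_curry _ ρ hπ.self, hyy]
    rw [← h1]
    refine hN.kills _ _ 2 2 _ ?_ ((hπ.tens hρ).kills _ (by norm_num)) y hy h0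
    exact gr_congr (by push_cast; ring) (hπ.tens hρ).mem
  have hty : C.act (tens C ρ (tens C (oddProj C o₁) (oddProj C o₂))) (tp C y) = tp C y := by
    rw [act_curry ρ _ hρ.self]
    have h3 := congrArg (tp C) hyy
    rw [tp_comp C (ch_comm C), tp_comp C (ch_comm C), hπ.self, hρ.self,
      ← comp_assoc C] at h3
    exact h3
  have hz : C.act (tens C (tens C ρ (oddProj C o₁)) (oddProj C o₂)) (C.pull (aI R T₁ T₂) (tp C y)) =
      C.pull (aI R T₁ T₂) (tp C y) := by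
    rw [← pull_aI_tens, act_pull_iso (aI R T₁ T₂) (aJ R T₁ T₂) aI_aJ aJ_aI, hty]
  have hspan : C.pull (aI R T₁ T₂) (tp C y) ∈ Submodule.span ℚ {c | ∃ (x : C.A (R.prod T₁))
      (t : C.A T₂), C.Deg ((2 : ℤ) - 1) x ∧ C.Deg 1 t ∧ c = C.ext x t} := by
    refine hF (R.prod T₁) T₂ 2 _ h₂ (C.pull_mem _ (tp_mem C hy)) fun t ht => ?_
    have e0 : C.down (fst (R.prod T₁) T₂) (C.mul (C.pull (aI R T₁ T₂) (tp C y))
        (C.up (snd (R.prod T₁) T₂) t)) = C.comp (tp C y) (wg C (fst T₁ T₂) (C.pull (snd T₁ T₂) t)) :=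
      fibre_aI (tp C y) t
    rw [e0]
    have e1 : C.comp (tp C y) (wg C (fst T₁ T₂) (C.pull (snd T₁ T₂) t)) =
        tp C (C.comp (tp C (wg C (fst T₁ T₂) (C.pull (snd T₁ T₂) t))) y) := by
      rw [tp_comp C (ch_comm C), tp_tp]
    rw [e1]
    have h1 : C.comp (tp C (wg C (fst T₁ T₂) (C.pull (snd T₁ T₂) t))) y = 0 := by
      refine hfib T₁ h₁ _ ?_ ?_ fun t' ht' => ?_
      · have e2 : C.comp (tp C (wg C (fst T₁ T₂) (C.pull (snd T₁ T₂) t))) y =
            C.act (tens C (wg C (fst T₁ T₂) (C.pull (snd T₁ T₂) t)) (dg C R)) y := by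
          rw [act_tens C (ch_comm C), comp_dg]
        rw [e2]
        refine hN.stable _ _ 2 2 _ ?_ y hyN
        have h5 : wg C (fst T₁ T₂) (C.pull (snd T₁ T₂) t) ∈
            C.gr ((T₁.prod T₂).prod T₁) ((T₁.prod T₂).dim + 0) := by
          have h := wg_mem (fst T₁ T₂) (C.pull_mem (snd T₁ T₂) (show t ∈ C.gr T₂ 1 from ht))
          refine gr_congr ?_ h
          rw [hd12, h₁]; norm_num
        have h6 : dg C R ∈ C.gr (R.prod R) (R.dim + 0) := by rw [add_zero]; exact dg_mem C R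
        have h7 := tens_mem C h5 h6
        refine gr_congr ?_ h7
        simp only [dim_prod]; push_cast; ring
      · conv_lhs => rw [← hyy]
        rw [comp_assoc C, comp_assoc C (C.comp _ y), hρ.idem, hyy]
      · rw [C.act_comp, act_tp_wg]
        refine hact _ ?_
        have h6 : C.pull (snd T₁ T₂) t * C.pull (fst T₁ T₂) t' ∈ C.gr (T₁.prod T₂) (1 + 1) :=
          C.mul_mem (C.pull_mem _ ht) (C.pull_mem _ ht')
        exact gr_congr (by norm_num) h6
    rw [h1, tp_zero]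
  have h8 : C.act (tens C (tens C ρ (oddProj C o₁)) (oddProj C o₂))
      (C.pull (aI R T₁ T₂) (tp C y)) = 0 := by
    refine eq_zero_of_span (H := H) hspan ?_
    rintro c ⟨x, t, hx, ht, rfl⟩
    rw [act_tens_ext C _ _ (fun f c => ch_comm C _ _),
      pure_div hN (hρ.tens hp1) (by norm_num) (by simpa using hx), TheoryData.ext_zero_left]
  rw [hz] at h8
  have h9 : tp C y = 0 := by
    refine pull_inj (f := aI R T₁ T₂) (g := aJ R T₁ T₂) aJ_aI ?_
    rw [h8, map_zero]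
  rw [← tp_tp C y, h9, tp_zero]

theorem carrier_prod (hF : FibreProperty C) {q : C.A ((T₁.prod T₂).prod (T₁.prod T₂))}
    (hq : IsTranscendental H (T₁.prod T₂) q) :
    Carrier H N (T₁.prod T₂) (tens C (oddProj C o₁) (oddProj C o₂)) :=
  ⟨pure_prod hN h₁ h₂ ho₁ ho₂ hd₁ hd₂, eq_prod hN h₁ h₂ ho₁ ho₂ hd₁ hd₂,
    fib_of hN hF (pure_prod hN h₁ h₂ ho₁ ho₂ hd₁ hd₂) hq,
    tst_prod hN h₁ h₂ ho₁ ho₂ hd₁ hd₂ hF⟩

end tst

end Pool.Agent.Q187.BC
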